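import Pool.Agent.Helper44.AUC.NonAUC

set_option autoImplicit false

open scoped BigOperators Pointwise

namespace Pool.Agent.Helper44.AUC

lemma dl_ge_explicit {t : ℝ} (ht : 0 < t) (n₀ : ℕ) :
    ∀ k n : ℕ, n + k = n₀ → ∀ s : X, Hist (1 / (4 * ((n₀ : ℝ) + 1))) n s → ∀ x : X, ‖x‖ = 1 →
      ((t * (Real.sqrt (3 * n₀ / 80) - 1 / 4) - 2 : ℝ) : EReal)
        ≤ dl (fun v => ‖v‖) k t (x + t • s) := by
  set η : ℝ := 1 / (4 * ((n₀ : ℝ) + 1)) with hη
  have hη0 : 0 < η := by positivity
  have hη1 : η ≤ 1/4 := by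
    rw [hη]
    apply one_div_le_one_div_of_le (by norm_num)
    have : (0:ℝ) ≤ n₀ := Nat.cast_nonneg _
    linarith
  have hη2 : (n₀ : ℝ) * η ≤ 1/4 := by
    rw [hη]
    have : (0:ℝ) ≤ n₀ := Nat.cast_nonneg _
    rw [mul_one_div, div_le_div_iff₀ (by positivity) (by norm_num)]
    linarith
  intro k
  induction k with
  | zero =>
    intro n hn s hs x hx
    have hn' : n = n₀ := by omega
    subst hn'
    have h1 := Hist_norm hη1 hs
    have h2 : Real.sqrt (3 * n / 80) - 1 / 4 ≤ ‖s‖ := by linarith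
    have h3 : t * (Real.sqrt (3 * n / 80) - 1 / 4) ≤ t * ‖s‖ :=
      mul_le_mul_of_nonneg_left h2 ht.le
    have h4 : t * ‖s‖ ≤ ‖x + t • s‖ + ‖x‖ := by
      have := norm_sub_le (x + t • s) x
      have h5 : x + t • s - x = t • s := by abel
      rw [h5, norm_smul, Real.norm_of_nonneg ht.le] at this
      exact this
    have h5 : t * (Real.sqrt (3 * n / 80) - 1 / 4) - 2 ≤ ‖x + t • s‖ - 1 := by linarith
    change _ ≤ ((‖x + t • s‖ - 1 : ℝ) : EReal)
    exact_mod_cast h5
  | succ k ih =>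
    intro n hn s hs x hx
    obtain ⟨M, hM⟩ := Hist_succ hη0 hs
    change _ ≤ ⨆ (Y : Submodule ℝ X) (_ : IsClosed (Y : Set X))
      (_ : FiniteDimensional ℝ (X ⧸ Y)),
        ⨅ (y : X) (_ : y ∈ Y) (_ : ‖y‖ = 1), dl (fun v => ‖v‖) k t (x + t • s + t • y)
    refine le_iSup_of_le (Y M) (le_iSup_of_le (isClosed_Y M) (le_iSup_of_le (coFG_Y M) ?_))
    refine le_iInf (fun y => le_iInf (fun hy => le_iInf (fun hy1 => ?_)))
    have h1 : x + t • s + t • y = x + t • (s + y) := by rw [smul_add, add_assoc]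
    rw [h1]
    exact ih (n+1) (by omega) (s + y) (hM y hy hy1) x hx

theorem moduli_ge {t : ℝ} (ht : 0 < t) (n : ℕ) (x : X) (hx : ‖x‖ = 1) :
    ((t * (Real.sqrt (3 * n / 80) - 1 / 4) - 2 : ℝ) : EReal) ≤ dl (fun v => ‖v‖) n t x := by
  have := dl_ge_explicit ht n n 0 (by omega) 0 (Hist_zero _) x hx
  simpa using this

/-- no equivalent norm has a positive first modulus at any t at most a / (6 b) -/
lemma not_AUC_explicit (p : Seminorm ℝ X) (a b : ℝ) (ha : 0 < a) (hb : 0 < b)
    (hab : ∀ x : X, a * ‖x‖ ≤ p x ∧ p x ≤ b * ‖x‖) {t : ℝ} (ht0 : 0 < t) (htb : t ≤ a / (6 * b)) :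
    (⨅ (x : X) (_ : p x = 1), dl (fun v => p v) 1 t x) ≤ 0 := by
  by_contra hcon
  have hAUC : 0 < ⨅ (x : X) (_ : p x = 1), dl (fun v => p v) 1 t x := not_le.1 hcon
  set S : ℝ := ⨆ v : Nd, p (J (e v)) with hS
  have hb1 : ∀ v : Nd, p (J (e v)) ≤ b := by
    intro v
    have h1 := (hab (J (e v))).2
    rw [norm_J] at h1
    have h2 := nm_e_le v
    nlinarith
  have hbdd : BddAbove (Set.range (fun v : Nd => p (J (e v)))) := by
    refine ⟨b, ?_⟩
    rintro _ ⟨v, rfl⟩
    exact hb1 v
  have hle : ∀ v, p (J (e v)) ≤ S := fun v => le_ciSup hbdd v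
  have hSb : S ≤ b := ciSup_le hb1
  have hS0 : 0 < S := by
    by_contra hcon
    have h0 : ∀ v, p (J (e v)) ≤ 0 := fun v => (hle v).trans (not_lt.1 hcon)
    have h1 : p (J (dd [] 0)) ≤ 0 := by
      have h2 : J (dd [] 0) = (1/2 : ℝ) • (J (e [(0, true)]) + J (e [(0, false)])) - J (e []) := by
        rw [← mid [] 0]; abel
      rw [h2]
      refine (map_sub_le_add p _ _).trans ?_
      rw [map_smul_eq_mul]
      have h3 := map_add_le_add p (J (e [(0, true)])) (J (e [(0, false)]))
      have h4 := h0 [(0, true)]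
      have h5 := h0 [(0, false)]
      have h6 := h0 []
      have h7 : ‖(1/2 : ℝ)‖ = 1/2 := by norm_num
      rw [h7]
      linarith
    have h2 := (hab (J (dd [] 0))).1
    rw [norm_J] at h2
    have h3 := nm_dd_ge [] 0
    nlinarith
  have htS : t ≤ a / 6 / S := by
    refine htb.trans ?_
    rw [div_div]
    exact div_le_div_of_nonneg_left ha.le (by positivity) (by linarith)
  obtain ⟨η', hη'0, hη'⟩ := EReal.lt_iff_exists_real_btwn.1 hAUC
  have hη0 : 0 < η' := by exact_mod_cast hη'0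
  -- choose a node with almost maximal norm
  have hlt : S / (1 + η' / 2) < S := by
    rw [div_lt_iff₀ (by positivity)]
    nlinarith
  obtain ⟨v, hv⟩ := exists_lt_of_lt_ciSup (hS ▸ hlt)
  set lam := p (J (e v)) with hlam
  have hlam0 : 0 < lam := lt_trans (by positivity) hv
  have hlamS : lam ≤ S := hle v
  set x : X := lam⁻¹ • J (e v) with hx
  have hpx : p x = 1 := by
    rw [hx, map_smul_eq_mul, Real.norm_of_nonneg (by positivity), ← hlam, inv_mul_cancel₀ hlam0.ne']
  have h1 : (η' : EReal) < dl (fun v => p v) 1 t x :=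
    lt_of_lt_of_le hη' (iInf_le_of_le x (iInf_le _ hpx))
  change (η' : EReal) < ⨆ (Y : Submodule ℝ X) (_ : IsClosed (Y : Set X))
      (_ : FiniteDimensional ℝ (X ⧸ Y)),
        ⨅ (y : X) (_ : y ∈ Y) (_ : p y = 1), ((p (x + t • y) - 1 : ℝ) : EReal) at h1
  obtain ⟨Z, hZ⟩ := lt_iSup_iff.1 h1
  obtain ⟨hZc, hZ⟩ := lt_iSup_iff.1 hZ
  obtain ⟨hZf, hZ⟩ := lt_iSup_iff.1 hZ
  have h2 : ∀ y ∈ Z, p y = 1 → 1 + η' ≤ p (x + t • y) := by
    intro y hy hy1
    have h3 : (η' : EReal) < ((p (x + t • y) - 1 : ℝ) : EReal) :=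
      lt_of_lt_of_le hZ (iInf_le_of_le y (iInf_le_of_le hy (iInf_le _ hy1)))
    have h4 : η' < p (x + t • y) - 1 := by exact_mod_cast h3
    linarith
  -- a good approximation
  set gap : ℝ := lam * (1 + η') - S with hgap
  have hgap0 : 0 < gap := by
    have h3 : S < lam * (1 + η' / 2) := by
      rwa [div_lt_iff₀ (by positivity)] at hv
    nlinarith
  set ε : ℝ := min (a / 6 / b) (gap / (2 * b)) with hε
  have hε0 : 0 < ε := by
    apply lt_min <;> positivity
  obtain ⟨α, y, hy, hyε⟩ := dd_approx Z hZc hZf v hε0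
  have hbε1 : b * ε ≤ a / 6 := by
    have : ε ≤ a / 6 / b := min_le_left _ _
    calc b * ε ≤ b * (a / 6 / b) := mul_le_mul_of_nonneg_left this hb.le
      _ = a / 6 := by field_simp
  have hbε2 : b * ε ≤ gap / 2 := by
    have : ε ≤ gap / (2 * b) := min_le_right _ _
    calc b * ε ≤ b * (gap / (2 * b)) := mul_le_mul_of_nonneg_left this hb.le
      _ = gap / 2 := by field_simp
  have hdiff : p (J (dd v α) - y) ≤ b * ε :=
    ((hab _).2).trans (mul_le_mul_of_nonneg_left hyε hb.le)
  have hpy : a / 6 ≤ p y := by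
    have h3 := (hab (J (dd v α))).1
    rw [norm_J] at h3
    have h4 := nm_dd_ge v α
    have h5 : p (J (dd v α)) ≤ p (J (dd v α) - y) + p y := by
      have := map_add_le_add p (J (dd v α) - y) y
      simpa using this
    nlinarith
  have hpy0 : 0 < p y := lt_of_lt_of_le (by positivity) hpy
  set y' : X := (p y)⁻¹ • y with hy'
  have hy'Z : y' ∈ Z := Z.smul_mem _ hy
  have hpy' : p y' = 1 := by
    rw [hy', map_smul_eq_mul, Real.norm_of_nonneg (by positivity), inv_mul_cancel₀ hpy0.ne']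
  set r : ℝ := p y / lam with hr
  have htr : t ≤ r := by
    refine htS.trans ?_
    rw [hr]
    exact div_le_div₀ hpy0.le hpy hlam0 hlamS
  have h3 := seminorm_convex hpx ht0 htr hη0.le (h2 y' hy'Z hpy')
  have h4 : lam • (x + r • y') = J (e v) + y := by
    rw [smul_add, hx, smul_smul, mul_inv_cancel₀ hlam0.ne', one_smul, hy', smul_smul, smul_smul]
    have : lam * r * (p y)⁻¹ = 1 := by
      rw [hr]; field_simp
    rw [this, one_smul]
  have h5 : lam * (1 + η') ≤ p (J (e v) + y) := by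
    rw [← h4, map_smul_eq_mul, Real.norm_of_nonneg hlam0.le]
    exact mul_le_mul_of_nonneg_left h3 hlam0.le
  have h6 : p (J (e v) + y) ≤ p (J (e v) + J (dd v α)) + p (J (dd v α) - y) := by
    have := map_sub_le_add p (J (e v) + J (dd v α)) (J (dd v α) - y)
    have h7 : J (e v) + J (dd v α) - (J (dd v α) - y) = J (e v) + y := by abel
    rwa [h7] at this
  have h7 : p (J (e v) + J (dd v α)) ≤ S := by
    rw [mid, map_smul_eq_mul]
    have h8 := map_add_le_add p (J (e ((α, true) :: v))) (J (e ((α, false) :: v)))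
    have h9 := hle ((α, true) :: v)
    have h10 := hle ((α, false) :: v)
    have h11 : ‖(1/2 : ℝ)‖ = 1/2 := by norm_num
    rw [h11]
    linarith
  have h8 : lam * (1 + η') ≤ S + gap / 2 := by linarith
  have h9 : gap ≤ gap / 2 := by
    have : gap = lam * (1 + η') - S := hgap
    linarith
  linarith

lemma separableSpace_VS : TopologicalSpace.SeparableSpace VS := by
  have h1 : (Submodule.span ℝ (Set.range (fun w : Nd => toVS (e w)))) = ⊤ := by
    rw [eq_top_iff]
    intro z _
    have h2 : z = toVS (toVS.symm z) := (toVS.apply_symm_apply z).symm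
    have h3 : toVS.symm z ∈ Submodule.span ℝ (Set.range e) := by
      have h4 : Submodule.span ℝ (Set.range e) = ⊤ := by
        have h5 := (Finsupp.basisSingleOne (R := ℝ) (ι := Nd)).span_eq
        have h6 : Set.range e = Set.range (Finsupp.basisSingleOne (R := ℝ) (ι := Nd)) := by
          congr 1
        rw [h6]; exact h5
      rw [h4]; exact Submodule.mem_top
    rw [h2]
    have h5 : toVS (toVS.symm z) ∈ (Submodule.span ℝ (Set.range e)).map (toVS : V →ₗ[ℝ] VS) :=
      Submodule.mem_map_of_mem h3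
    rw [Submodule.map_span, ← Set.range_comp] at h5
    exact h5
  have h2 : TopologicalSpace.IsSeparable (Set.range (fun w : Nd => toVS (e w))) :=
    (Set.countable_range _).isSeparable
  have h3 := h2.span (R := ℝ)
  rw [h1] at h3
  exact TopologicalSpace.isSeparable_univ_iff.1 (by simpa using h3)

lemma separableSpace_X : TopologicalSpace.SeparableSpace X := by
  have := separableSpace_VS
  infer_instance

end Pool.Agent.Helper44.AUC
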