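import Pool.Agent.Helper44.AUC.Space

set_option autoImplicit false

open scoped BigOperators Pointwise

namespace Pool.Agent.Helper44.AUC

/-- Sequence form of the main inequality: lower 2-estimate for plays. -/
theorem main_seq (N : ℕ → ℕ) (hN : Monotone N) (v : ℕ → V) (n : ℕ)
    (hW : ∀ k < n, v k ∈ W (N k)) (hP : ∀ k < n, P (N (k+1)) (v k) = v k) :
    ∑ k ∈ Finset.range n, nm (v k) ^ 2 ≤ 15 * nm (∑ k ∈ Finset.range n, v k) ^ 2 := by
  set z := ∑ k ∈ Finset.range n, v k with hz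
  have hPz : ∀ k ≤ n, P (N k) z = ∑ i ∈ Finset.range k, v i := by
    intro k hk
    have h1 : Finset.range k ⊆ Finset.range n := Finset.range_subset_range.2 hk
    rw [hz, map_sum, ← Finset.sum_subset h1]
    · refine Finset.sum_congr rfl (fun i hi => ?_)
      have hik : i < k := Finset.mem_range.1 hi
      have h2 : N (i+1) ≤ N k := hN hik
      rw [← hP i (hik.trans_le hk)]
      -- P (N k) (P (N (i+1)) (v i)) = P (N (i+1)) (v i)
      have h3 : P (N k) (P (N (i+1)) (v i)) = P (N (i+1)) (v i) := by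
        have : (P (N k)).comp (P (N (i+1))) = P (N (i+1)) := by
          apply Finsupp.lhom_ext
          intro w c
          simp only [P, LinearMap.comp_apply, Finsupp.lmapDomain_apply, Finsupp.mapDomain_single,
            pr_of_InF (InF_mono h2 (pr_InF (N (i+1)) w))]
        exact LinearMap.congr_fun this (v i)
      exact h3
    · intro i hin hik
      have hki : k ≤ i := by simpa using hik
      have h2 : N k ≤ N i := hN hki
      have h3 := (mem_W.1 (hW i (Finset.mem_range.1 hin))).1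
      rw [← P_P h2, h3, map_zero]
  have hQ : ∀ k < n, P (N (k+1)) z - P (N k) z = v k := by
    intro k hk
    rw [hPz (k+1) hk, hPz k hk.le, Finset.sum_range_succ]
    abel
  have h := main_V z N hN n (fun k hk u hu => by
    rw [hQ k hk]
    exact (mem_W.1 (hW k hk)).2 u hu)
  have h' : ∑ k ∈ Finset.range n, nm (P (N (k+1)) z - P (N k) z) ^ 2 =
      ∑ k ∈ Finset.range n, nm (v k) ^ 2 :=
    Finset.sum_congr rfl (fun k hk => by rw [hQ k (Finset.mem_range.1 hk)])
  rw [← h']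
  exact h

/-- positions reachable in `n` rounds (up to error `n * η`) -/
def Hist (η : ℝ) (n : ℕ) (s : X) : Prop :=
  ∃ (N : ℕ → ℕ) (v : ℕ → V), Monotone N ∧ (∀ k < n, v k ∈ W (N k)) ∧
    (∀ k < n, P (N (k+1)) (v k) = v k) ∧ (∀ k < n, 1 - η ≤ nm (v k)) ∧
    ‖s - J (∑ k ∈ Finset.range n, v k)‖ ≤ n * η

lemma Hist_zero (η : ℝ) : Hist η 0 0 :=
  ⟨fun _ => 0, fun _ => 0, monotone_const, by simp, by simp, by simp, by simp⟩

lemma Hist_succ {η : ℝ} (hη : 0 < η) {n : ℕ} {s : X} (h : Hist η n s) :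
    ∃ M : ℕ, ∀ y ∈ Y M, ‖y‖ = 1 → Hist η (n+1) (s + y) := by
  obtain ⟨N, v, hN, hW, hP, hnm, herr⟩ := h
  refine ⟨N n, fun y hy hy1 => ?_⟩
  obtain ⟨w, hw, hyw⟩ := exists_approx hy hη
  obtain ⟨N', hN'⟩ := exists_P_eq w
  refine ⟨fun i => if i ≤ n then N i else max (N n) N', fun i => if i < n then v i else w,
    ?_, ?_, ?_, ?_, ?_⟩
  · intro i j hij
    by_cases hj : j ≤ n
    · have hi : i ≤ n := hij.trans hj
      simp only [hi, hj, if_true]
      exact hN hij
    · by_cases hi : i ≤ n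
      · simp only [hi, hj, if_true, if_false]
        exact (hN hi).trans (le_max_left _ _)
      · simp [hi, hj]
  · intro k hk
    rcases Nat.lt_succ_iff_lt_or_eq.1 hk with h1 | h1
    · simp only [h1, h1.le, if_true]
      exact hW k h1
    · subst h1
      simpa using hw
  · intro k hk
    rcases Nat.lt_succ_iff_lt_or_eq.1 hk with h1 | h1
    · have h2 : k + 1 ≤ n := h1
      simp only [h1, h2, if_true]
      exact hP k h1
    · subst h1
      have h2 : ¬ (k + 1 ≤ k) := by omega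
      simp only [h2, if_false, lt_irrefl]
      exact hN' _ (le_max_right _ _)
  · intro k hk
    rcases Nat.lt_succ_iff_lt_or_eq.1 hk with h1 | h1
    · simp only [h1, if_true]
      exact hnm k h1
    · subst h1
      simp only [lt_irrefl, if_false]
      have h3 : ‖y‖ ≤ ‖y - J w‖ + ‖J w‖ := by
        have := norm_add_le (y - J w) (J w)
        simpa using this
      rw [norm_J] at h3
      linarith
  · have h1 : ∑ k ∈ Finset.range (n+1), (if k < n then v k else w) =
        ∑ k ∈ Finset.range n, v k + w := by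
      rw [Finset.sum_range_succ]
      simp only [lt_irrefl, if_false]
      congr 1
      refine Finset.sum_congr rfl (fun k hk => ?_)
      simp [Finset.mem_range.1 hk]
    rw [h1, map_add]
    have h2 : s + y - (J (∑ k ∈ Finset.range n, v k) + J w) =
        (s - J (∑ k ∈ Finset.range n, v k)) + (y - J w) := by abel
    rw [h2]
    refine (norm_add_le _ _).trans ?_
    push_cast
    linarith

lemma Hist_norm {η : ℝ} {n : ℕ} (hη1 : η ≤ 1/4) {s : X} (h : Hist η n s) :
    Real.sqrt (3 * n / 80) - n * η ≤ ‖s‖ := by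
  obtain ⟨N, v, hN, hW, hP, hnm, herr⟩ := h
  set z := ∑ k ∈ Finset.range n, v k with hz
  have h1 := main_seq N hN v n hW hP
  rw [← hz] at h1
  have h2 : (n : ℝ) * (3/4) ^ 2 ≤ ∑ k ∈ Finset.range n, nm (v k) ^ 2 := by
    have : ∑ k ∈ Finset.range n, ((3:ℝ)/4) ^ 2 ≤ ∑ k ∈ Finset.range n, nm (v k) ^ 2 := by
      refine Finset.sum_le_sum (fun k hk => ?_)
      have h3 := hnm k (Finset.mem_range.1 hk)
      exact pow_le_pow_left₀ (by norm_num) (by linarith) 2
    simpa using this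
  have h3 : 3 * (n:ℝ) / 80 ≤ nm z ^ 2 := by linarith
  have h4 : Real.sqrt (3 * n / 80) ≤ nm z := by
    rw [show nm z = Real.sqrt (nm z ^ 2) from (Real.sqrt_sq (apply_nonneg _ _)).symm]
    exact Real.sqrt_le_sqrt h3
  have h5 : ‖J z‖ ≤ ‖s - J z‖ + ‖s‖ := by
    have := norm_sub_le s (s - J z)
    have h6 : s - (s - J z) = J z := by abel
    rw [h6] at this
    linarith
  rw [norm_J] at h5
  linarith

/-- the higher order moduli -/
noncomputable def dl (N : X → ℝ) : ℕ → ℝ → X → EReal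
  | 0, _, z => ((N z - 1 : ℝ) : EReal)
  | (k+1), t, z => ⨆ (Y : Submodule ℝ X) (_ : IsClosed (Y : Set X)) (_ : FiniteDimensional ℝ (X ⧸ Y)),
        ⨅ (y : X) (_ : y ∈ Y) (_ : N y = 1), dl N k t (z + t • y)

lemma dl_ge {t : ℝ} (ht : 0 < t) (n₀ : ℕ) (hn₀ : 3 / t + 1/4 ≤ Real.sqrt (3 * n₀ / 80)) :
    ∀ k n : ℕ, n + k = n₀ → ∀ s : X, Hist (1 / (4 * ((n₀ : ℝ) + 1))) n s → ∀ x : X, ‖x‖ = 1 →
      (1 : EReal) ≤ dl (fun v => ‖v‖) k t (x + t • s) := by
  set η : ℝ := 1 / (4 * ((n₀ : ℝ) + 1)) with hη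
  have hη0 : 0 < η := by positivity
  have hη1 : η ≤ 1/4 := by
    rw [hη]
    apply one_div_le_one_div_of_le (by norm_num)
    have : (0:ℝ) ≤ n₀ := Nat.cast_nonneg _
    linarith
  have hη2 : (n₀ : ℝ) * η ≤ 1/4 := by
    rw [hη]
    have : (0:ℝ) ≤ n₀ := Nat.cast_nonneg _
    rw [mul_one_div, div_le_div_iff₀ (by positivity) (by norm_num)]
    linarith
  intro k
  induction k with
  | zero =>
    intro n hn s hs x hx
    have hn' : n = n₀ := by omega
    subst hn'
    have h1 := Hist_norm hη1 hs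
    have h2 : 3 / t ≤ ‖s‖ := by linarith
    have h3 : 3 ≤ t * ‖s‖ := by
      rw [div_le_iff₀ ht] at h2
      linarith
    have h4 : t * ‖s‖ ≤ ‖x + t • s‖ + ‖x‖ := by
      have := norm_sub_le (x + t • s) x
      have h5 : x + t • s - x = t • s := by abel
      rw [h5, norm_smul, Real.norm_of_nonneg ht.le] at this
      exact this
    have h5 : (1:ℝ) ≤ ‖x + t • s‖ - 1 := by linarith
    change (1 : EReal) ≤ ((‖x + t • s‖ - 1 : ℝ) : EReal)
    exact_mod_cast h5
  | succ k ih =>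
    intro n hn s hs x hx
    obtain ⟨M, hM⟩ := Hist_succ hη0 hs
    change (1 : EReal) ≤ ⨆ (Y : Submodule ℝ X) (_ : IsClosed (Y : Set X))
      (_ : FiniteDimensional ℝ (X ⧸ Y)),
        ⨅ (y : X) (_ : y ∈ Y) (_ : ‖y‖ = 1), dl (fun v => ‖v‖) k t (x + t • s + t • y)
    refine le_iSup_of_le (Y M) (le_iSup_of_le (isClosed_Y M) (le_iSup_of_le (coFG_Y M) ?_))
    refine le_iInf (fun y => le_iInf (fun hy => le_iInf (fun hy1 => ?_)))
    have h1 : x + t • s + t • y = x + t • (s + y) := by rw [smul_add, add_assoc]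
    rw [h1]
    exact ih (n+1) (by omega) (s + y) (hM y hy hy1) x hx

theorem hyp_holds (t : ℝ) (ht : 0 < t) :
    ∃ n₀ : ℕ, 0 < ⨅ (x : X) (_ : ‖x‖ = 1), dl (fun v => ‖v‖) n₀ t x := by
  obtain ⟨n₀, hn₀⟩ := exists_nat_ge (80 / 3 * (3 / t + 1/4) ^ 2)
  refine ⟨n₀, ?_⟩
  have h1 : 3 / t + 1/4 ≤ Real.sqrt (3 * n₀ / 80) := by
    apply Real.le_sqrt_of_sq_le
    linarith
  have h2 : (1 : EReal) ≤ ⨅ (x : X) (_ : ‖x‖ = 1), dl (fun v => ‖v‖) n₀ t x := by
    refine le_iInf (fun x => le_iInf (fun hx => ?_))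
    have := dl_ge ht n₀ h1 n₀ 0 (by omega) 0 (Hist_zero _) x hx
    simpa using this
  exact lt_of_lt_of_le (by norm_num) h2

end Pool.Agent.Helper44.AUC
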