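import Pool.Agent.Helper44.AUC.Stage

set_option autoImplicit false

open scoped BigOperators Pointwise

namespace Pool.Agent.Helper44.AUC

lemma wcs {ι : Type*} (s : Finset ι) (l x : ι → ℝ) (hl : ∀ i ∈ s, 0 ≤ l i) :
    (∑ i ∈ s, l i * x i) ^ 2 ≤ (∑ i ∈ s, l i) * ∑ i ∈ s, l i * x i ^ 2 := by
  have h := Finset.sum_mul_sq_le_sq_mul_sq s (fun i => Real.sqrt (l i))
    (fun i => Real.sqrt (l i) * x i)
  have h1 : ∑ i ∈ s, Real.sqrt (l i) * (Real.sqrt (l i) * x i) = ∑ i ∈ s, l i * x i := by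
    refine Finset.sum_congr rfl (fun i hi => ?_)
    rw [← mul_assoc, Real.mul_self_sqrt (hl i hi)]
  have h2 : ∑ i ∈ s, Real.sqrt (l i) ^ 2 = ∑ i ∈ s, l i :=
    Finset.sum_congr rfl (fun i hi => Real.sq_sqrt (hl i hi))
  have h3 : ∑ i ∈ s, (Real.sqrt (l i) * x i) ^ 2 = ∑ i ∈ s, l i * x i ^ 2 := by
    refine Finset.sum_congr rfl (fun i hi => ?_)
    rw [mul_pow, Real.sq_sqrt (hl i hi)]
  rw [h1, h2, h3] at h
  exact h

lemma sum_boole_inj_le_one {α β : Type*} [DecidableEq β] (s : Finset α) (f : α → β)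
    (hf : ∀ a ∈ s, ∀ b ∈ s, f a = f b → a = b) (x : β) :
    ∑ a ∈ s, (if x = f a then (1 : ℝ) else 0) ≤ 1 := by
  rw [Finset.sum_boole]
  have : (s.filter (fun a => x = f a)).card ≤ 1 := by
    rw [Finset.card_le_one]
    intro a ha b hb
    rw [Finset.mem_filter] at ha hb
    exact hf a ha.1 b hb.1 (ha.2.symm.trans hb.2)
  exact_mod_cast this

lemma P_mol (N : ℕ) (g : GD) : P N g.mol = ∑ v ∈ g.s, g.b v • (e (pr N (g.w v)) - e (pr N v)) := by
  simp only [GD.mol, map_sum, map_smul, map_sub, P_e]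

lemma GD.mem_InF (g : GD) {v : Nd} (hv : v ∈ g.s) : InF g.M v := by
  have := pr_InF g.M (g.w v)
  rwa [g.hw v hv] at this

lemma P_mol_zero {N : ℕ} (g : GD) (h : N ≤ g.M) : P N g.mol = 0 := by
  rw [P_mol]
  refine Finset.sum_eq_zero (fun v hv => ?_)
  have : pr N (g.w v) = pr N v := by
    rw [← pr_pr h (g.w v), g.hw v hv]
  rw [this, sub_self, smul_zero]

lemma P_mol_of_le {N : ℕ} (g : GD) (h : g.M ≤ N) :
    P N g.mol = ∑ v ∈ g.s, g.b v • (e (pr N (g.w v)) - e v) := by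
  rw [P_mol]
  refine Finset.sum_congr rfl (fun v hv => ?_)
  rw [pr_of_InF (InF_mono h (g.mem_InF hv))]

lemma pr_w {N : ℕ} (g : GD) (h : g.M ≤ N) {v : Nd} (hv : v ∈ g.s) :
    pr g.M (pr N (g.w v)) = v := by rw [pr_pr h, g.hw v hv]

lemma nm_P_mol_le {N : ℕ} (g : GD) (h : g.M ≤ N) : nm (P N g.mol) ≤ 1 := by
  rw [P_mol_of_le g h]
  exact nm_le_one_of_mem (mol_mem_Ball g.M g.s g.b _ g.hb (fun v hv => pr_w g h hv))

lemma psi_dd (u v : Nd) (α : ℕ) : lin (psi u) (dd v α) = 0 := by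
  unfold dd
  rw [map_sub, map_smul, map_add, lin_e, lin_e, lin_e]
  by_cases h : v = u
  · subst h
    simp [psi, jf_cons_self, jf_self, sg]
  · simp only [psi, jf_cons_ne _ _ h, smul_eq_mul]
    ring

lemma psi_P_dd (u v : Nd) (α N : ℕ) : lin (psi u) (P N (dd v α)) = 0 := by
  rw [P_dd]
  split_ifs
  · exact psi_dd u v α
  · exact map_zero _

lemma psi_P_dp (u : Nd) (N : ℕ) (g : GD) : lin (psi u) (P N g.dp) = 0 := by
  simp only [GD.dp, map_sum, map_smul, psi_P_dd, smul_zero, Finset.sum_const_zero]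

/-- correlations -/
noncomputable def G (N : ℕ) (g h : GD) : ℝ :=
  ∑ v ∈ g.s, ∑ v' ∈ h.s, |g.b v| * |h.b v'| * (if pr N (g.w v) = pr N (h.w v') then 1 else 0)

lemma G_nonneg (N : ℕ) (g h : GD) : 0 ≤ G N g h := by
  refine Finset.sum_nonneg (fun v _ => Finset.sum_nonneg (fun v' _ => ?_))
  split_ifs <;> positivity

lemma G_anti {M N : ℕ} (hMN : M ≤ N) (g h : GD) : G N g h ≤ G M g h := by
  refine Finset.sum_le_sum (fun v _ => Finset.sum_le_sum (fun v' _ => ?_))
  refine mul_le_mul_of_nonneg_left ?_ (by positivity)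
  by_cases h1 : pr N (g.w v) = pr N (h.w v')
  · have h2 : pr M (g.w v) = pr M (h.w v') := by
      rw [← pr_pr hMN, h1, pr_pr hMN]
    simp [h1, h2]
  · simp only [h1, if_false]
    split_ifs <;> norm_num

lemma G_le_one {N : ℕ} (g h : GD) (hg : g.M ≤ N) (hh : h.M ≤ N) : G N g h ≤ 1 := by
  have h1 : G N g h ≤ ∑ v ∈ g.s, ∑ v' ∈ h.s, ((1/2) * g.b v ^ 2 + (1/2) * h.b v' ^ 2) *
      (if pr N (g.w v) = pr N (h.w v') then 1 else 0) := by
    refine Finset.sum_le_sum (fun v _ => Finset.sum_le_sum (fun v' _ => ?_))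
    refine mul_le_mul_of_nonneg_right ?_ (by split_ifs <;> norm_num)
    have := sq_nonneg (|g.b v| - |h.b v'|)
    rw [← sq_abs (g.b v), ← sq_abs (h.b v')]
    nlinarith
  have hinj : ∀ (g : GD), g.M ≤ N → ∀ a ∈ g.s, ∀ b ∈ g.s,
      pr N (g.w a) = pr N (g.w b) → a = b := by
    intro g hg a ha b hb hab
    rw [← pr_w g hg ha, hab, pr_w g hg hb]
  have h2 : ∑ v ∈ g.s, ∑ v' ∈ h.s, (1/2) * g.b v ^ 2 *
      (if pr N (g.w v) = pr N (h.w v') then (1:ℝ) else 0) ≤ 1/2 := by
    calc ∑ v ∈ g.s, ∑ v' ∈ h.s, (1/2) * g.b v ^ 2 *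
          (if pr N (g.w v) = pr N (h.w v') then (1:ℝ) else 0)
        ≤ ∑ v ∈ g.s, (1/2) * g.b v ^ 2 := by
          refine Finset.sum_le_sum (fun v _ => ?_)
          rw [← Finset.mul_sum]
          have := sum_boole_inj_le_one h.s (fun v' => pr N (h.w v')) (hinj h hh) (pr N (g.w v))
          have h0 : 0 ≤ (1/2) * g.b v ^ 2 := by positivity
          nlinarith
      _ = (1/2) * ∑ v ∈ g.s, g.b v ^ 2 := by rw [Finset.mul_sum]
      _ ≤ 1/2 := by linarith [g.hb]
  have h3 : ∑ v ∈ g.s, ∑ v' ∈ h.s, (1/2) * h.b v' ^ 2 *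
      (if pr N (g.w v) = pr N (h.w v') then (1:ℝ) else 0) ≤ 1/2 := by
    rw [Finset.sum_comm]
    calc ∑ v' ∈ h.s, ∑ v ∈ g.s, (1/2) * h.b v' ^ 2 *
          (if pr N (g.w v) = pr N (h.w v') then (1:ℝ) else 0)
        ≤ ∑ v' ∈ h.s, (1/2) * h.b v' ^ 2 := by
          refine Finset.sum_le_sum (fun v' _ => ?_)
          rw [← Finset.mul_sum]
          have := sum_boole_inj_le_one g.s (fun v => pr N (g.w v)) (hinj g hg) (pr N (h.w v'))
          have h0 : 0 ≤ (1/2) * h.b v' ^ 2 := by positivity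
          have h4 : ∑ v ∈ g.s, (if pr N (g.w v) = pr N (h.w v') then (1:ℝ) else 0) =
              ∑ v ∈ g.s, (if pr N (h.w v') = pr N (g.w v) then (1:ℝ) else 0) := by
            refine Finset.sum_congr rfl (fun v _ => ?_)
            simp only [eq_comm]
          rw [h4]
          nlinarith
      _ = (1/2) * ∑ v' ∈ h.s, h.b v' ^ 2 := by rw [Finset.mul_sum]
      _ ≤ 1/2 := by linarith [h.hb]
  have h4 : ∑ v ∈ g.s, ∑ v' ∈ h.s, ((1/2) * g.b v ^ 2 + (1/2) * h.b v' ^ 2) *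
      (if pr N (g.w v) = pr N (h.w v') then (1:ℝ) else 0) =
      ∑ v ∈ g.s, ∑ v' ∈ h.s, (1/2) * g.b v ^ 2 *
      (if pr N (g.w v) = pr N (h.w v') then (1:ℝ) else 0) +
      ∑ v ∈ g.s, ∑ v' ∈ h.s, (1/2) * h.b v' ^ 2 *
      (if pr N (g.w v) = pr N (h.w v') then (1:ℝ) else 0) := by
    rw [← Finset.sum_add_distrib]
    refine Finset.sum_congr rfl (fun v _ => ?_)
    rw [← Finset.sum_add_distrib]
    refine Finset.sum_congr rfl (fun v' _ => ?_)
    ring
  linarith

noncomputable def gam (N : ℕ) (g h : GD) : ℝ := if g.M ≤ N ∧ h.M ≤ N then G N g h else 1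

lemma gam_nonneg (N : ℕ) (g h : GD) : 0 ≤ gam N g h := by
  unfold gam; split_ifs
  · exact G_nonneg N g h
  · norm_num

lemma gam_le_one (N : ℕ) (g h : GD) : gam N g h ≤ 1 := by
  unfold gam; split_ifs with h1
  · exact G_le_one g h h1.1 h1.2
  · exact le_rfl

lemma gam_anti {M N : ℕ} (hMN : M ≤ N) (g h : GD) : gam N g h ≤ gam M g h := by
  by_cases h1 : g.M ≤ M ∧ h.M ≤ M
  · have h2 : g.M ≤ N ∧ h.M ≤ N := ⟨h1.1.trans hMN, h1.2.trans hMN⟩
    simp only [gam, h1, h2, and_self, if_true]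
    exact G_anti hMN g h
  · have : gam M g h = 1 := by simp [gam, h1]
    rw [this]
    exact gam_le_one N g h

noncomputable def ind (N : ℕ) (q : Nd × ℕ) : ℝ := if InF N ((q.2, true) :: q.1) then 1 else 0

lemma ind_nonneg (N : ℕ) (q : Nd × ℕ) : 0 ≤ ind N q := by unfold ind; split_ifs <;> norm_num

lemma ind_le_one (N : ℕ) (q : Nd × ℕ) : ind N q ≤ 1 := by unfold ind; split_ifs <;> norm_num

lemma nm_dp_diff {N N' : ℕ} (hN : N ≤ N') (g : GD) :
    nm (P N' g.dp - P N g.dp) ^ 2 ≤ ∑ q ∈ g.t, g.a q ^ 2 * (ind N' q - ind N q) := by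
  have h1 : P N' g.dp - P N g.dp = ∑ q ∈ g.t, (g.a q * (ind N' q - ind N q)) • dd q.1 q.2 := by
    simp only [GD.dp, map_sum, map_smul]
    rw [← Finset.sum_sub_distrib]
    refine Finset.sum_congr rfl (fun q _ => ?_)
    rw [P_dd, P_dd, ← smul_sub, mul_smul]
    congr 1
    unfold ind
    by_cases h1 : InF N ((q.2, true) :: q.1)
    · have h2 : InF N' ((q.2, true) :: q.1) := InF_mono hN h1
      simp [h1, h2]
    · by_cases h2 : InF N' ((q.2, true) :: q.1)
      · simp [h1, h2]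
      · simp [h1, h2]
  rw [h1]
  refine (nm_dp_sq_le g.t (fun q => g.a q * (ind N' q - ind N q))).trans_eq ?_
  refine Finset.sum_congr rfl (fun q _ => ?_)
  rw [mul_pow]
  congr 1
  unfold ind
  by_cases h1 : InF N ((q.2, true) :: q.1)
  · have h2 : InF N' ((q.2, true) :: q.1) := InF_mono hN h1
    simp [h1, h2]
  · by_cases h2 : InF N' ((q.2, true) :: q.1)
    · simp [h1, h2]
    · simp [h1, h2]

/-- The splitting energy of a stage. -/
lemma stage_energy {ι : Type*} (S : Finset ι) (l : ι → ℝ) (hl : ∀ i, 0 ≤ l i) (g : ι → GD)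
    {N N' : ℕ} (hN : N ≤ N') (hS : ∀ j ∈ S, (g j).M ≤ N) :
    nm (∑ j ∈ S, l j • (P N' (g j).mol - P N (g j).mol)) ^ 2 ≤
      2 * ∑ i ∈ S, ∑ j ∈ S, l i * l j * (G N (g i) (g j) - G N' (g i) (g j)) +
      ∑ u ∈ (S.sigma (fun j => (g j).s)).image (fun ω => pr N (pr N' ((g ω.1).w ω.2))),
        (lin (psi u) (∑ j ∈ S, l j • (P N' (g j).mol - P N (g j).mol))) ^ 2 := by
  classical
  set Ω := S.sigma (fun j => (g j).s) with hΩ
  set m : (Σ _ : ι, Nd) → ℝ := fun ω => l ω.1 * (g ω.1).b ω.2 with hm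
  set y : (Σ _ : ι, Nd) → Nd := fun ω => pr N' ((g ω.1).w ω.2) with hy
  have hA : ∑ j ∈ S, l j • (P N' (g j).mol - P N (g j).mol) =
      ∑ ω ∈ Ω, m ω • (e (y ω) - e (pr N (y ω))) := by
    rw [hΩ, Finset.sum_sigma]
    refine Finset.sum_congr rfl (fun j hj => ?_)
    rw [P_mol_of_le (g j) ((hS j hj).trans hN), P_mol_of_le (g j) (hS j hj),
      ← Finset.sum_sub_distrib, Finset.smul_sum]
    refine Finset.sum_congr rfl (fun v _ => ?_)
    simp only [hm, hy]
    rw [pr_pr hN, ← smul_sub, smul_smul]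
    congr 1
    abel
  have hst := stage Ω m y N
  rw [← hA] at hst
  have hτ : ∀ u, ∑ ω ∈ Ω, m ω * (psi u (y ω) - psi u (pr N (y ω))) =
      lin (psi u) (∑ j ∈ S, l j • (P N' (g j).mol - P N (g j).mol)) := by
    intro u
    rw [hA, map_sum]
    refine Finset.sum_congr rfl (fun ω _ => ?_)
    rw [map_smul, map_sub, lin_e, lin_e, smul_eq_mul]
  simp_rw [hτ] at hst
  have hE : ∑ ω ∈ Ω, ∑ ω' ∈ Ω, |m ω| * |m ω'| *
        (if pr N (y ω) = pr N (y ω') ∧ y ω ≠ y ω' then (1:ℝ) else 0) =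
      ∑ i ∈ S, ∑ j ∈ S, l i * l j * (G N (g i) (g j) - G N' (g i) (g j)) := by
    rw [hΩ, Finset.sum_sigma]
    have h1 : ∀ ω : (Σ _ : ι, Nd), ∑ ω' ∈ S.sigma (fun j => (g j).s), |m ω| * |m ω'| *
        (if pr N (y ω) = pr N (y ω') ∧ y ω ≠ y ω' then (1:ℝ) else 0) =
        ∑ j ∈ S, ∑ v' ∈ (g j).s, |m ω| * |m ⟨j, v'⟩| *
        (if pr N (y ω) = pr N (y ⟨j, v'⟩) ∧ y ω ≠ y ⟨j, v'⟩ then (1:ℝ) else 0) := by
      intro ω
      rw [Finset.sum_sigma]
    simp_rw [h1]
    refine Finset.sum_congr rfl (fun i _ => ?_)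
    rw [Finset.sum_comm]
    refine Finset.sum_congr rfl (fun j _ => ?_)
    unfold G
    rw [← Finset.sum_sub_distrib, Finset.mul_sum]
    refine Finset.sum_congr rfl (fun v _ => ?_)
    rw [← Finset.sum_sub_distrib, Finset.mul_sum]
    refine Finset.sum_congr rfl (fun v' _ => ?_)
    simp only [hm, hy]
    rw [pr_pr hN, pr_pr hN, abs_mul, abs_mul, abs_of_nonneg (hl i), abs_of_nonneg (hl j)]
    by_cases h1 : pr N' ((g i).w v) = pr N' ((g j).w v')
    · have h2 : pr N ((g i).w v) = pr N ((g j).w v') := by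
        rw [← pr_pr hN, h1, pr_pr hN]
      simp [h1, h2]
    · by_cases h2 : pr N ((g i).w v) = pr N ((g j).w v')
      · simp [h1, h2]; ring
      · simp [h1, h2]
  rw [hE] at hst
  exact hst

lemma nm_sum_le {ι : Type*} (s : Finset ι) (l : ι → ℝ) (hl : ∀ i, 0 ≤ l i) (x : ι → V) :
    nm (∑ j ∈ s, l j • x j) ≤ ∑ j ∈ s, l j * nm (x j) := by
  classical
  induction s using Finset.induction_on with
  | empty => simp
  | insert a s ha ih =>
    rw [Finset.sum_insert ha, Finset.sum_insert ha]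
    refine (map_add_le_add nm _ _).trans ?_
    rw [map_smul_eq_mul, Real.norm_of_nonneg (hl a)]
    linarith

lemma psi_mol {N' : ℕ} (g : GD) (h : g.M ≤ N') {u : Nd} (hu : InF g.M u) :
    |lin (psi u) (P N' g.mol)| ≤ if u ∈ g.s then |g.b u| else 0 := by
  classical
  rw [P_mol_of_le g h, map_sum]
  have h1 : ∀ v ∈ g.s, v ≠ u → lin (psi u) (g.b v • (e (pr N' (g.w v)) - e v)) = 0 := by
    intro v hv hvu
    rw [map_smul, map_sub, lin_e, lin_e]
    have h2 : pr g.M (pr N' (g.w v)) ≠ u := by rw [pr_w g h hv]; exact hvu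
    rw [psi_pr hu h2, pr_w g h hv, sub_self, smul_zero]
  by_cases hus : u ∈ g.s
  · rw [Finset.sum_eq_single_of_mem u hus h1, if_pos hus, map_smul, map_sub, lin_e, lin_e,
      psi_self, sub_zero, smul_eq_mul, abs_mul]
    have := abs_psi_le u (pr N' (g.w u))
    nlinarith [abs_nonneg (g.b u)]
  · rw [if_neg hus, Finset.sum_eq_zero (fun v hv => h1 v hv (fun h => hus (h ▸ hv))), abs_zero]

/-- One stage of the main inequality. -/
lemma per_stage {ι : Type*} [Fintype ι] [DecidableEq ι] (l : ι → ℝ) (hl0 : ∀ i, 0 ≤ l i)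
    (hl1 : ∑ i, l i = 1) (g : ι → GD) {N N' : ℕ} (hN : N ≤ N') (z : V)
    (hz : z = ∑ i, l i • (g i).val)
    (hbal : ∀ u, InF N u → lin (psi u) (P N' z - P N z) = 0) :
    nm (P N' z - P N z) ^ 2 ≤ 3 * (2 * (∑ i with (g i).M ≤ N, ∑ j with (g j).M ≤ N,
        l i * l j * (G N (g i) (g j) - G N' (g i) (g j))) +
      2 * (∑ j with N < (g j).M ∧ (g j).M ≤ N', l j) +
      ∑ j, l j * ∑ q ∈ (g j).t, (g j).a q ^ 2 * (ind N' q - ind N q)) := by
  set S := Finset.univ.filter (fun i => (g i).M ≤ N) with hS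
  set B := Finset.univ.filter (fun i => N < (g i).M ∧ (g i).M ≤ N') with hB
  set O : V := ∑ j ∈ S, l j • (P N' (g j).mol - P N (g j).mol) with hO
  set Bi : V := ∑ j ∈ B, l j • P N' (g j).mol with hBi
  set D : V := ∑ j, l j • (P N' (g j).dp - P N (g j).dp) with hD
  set ε := ∑ j ∈ B, l j with hε
  have hε0 : 0 ≤ ε := Finset.sum_nonneg (fun i _ => hl0 i)
  have hε1 : ε ≤ 1 := by
    rw [← hl1]
    exact Finset.sum_le_sum_of_subset_of_nonneg (Finset.filter_subset _ _) (fun i _ _ => hl0 i)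
  have hdec : P N' z - P N z = O + Bi + D := by
    have h1 : P N' z - P N z = ∑ j, l j • (P N' (g j).mol - P N (g j).mol) + D := by
      rw [hz, hD, map_sum, map_sum, ← Finset.sum_sub_distrib, ← Finset.sum_add_distrib]
      refine Finset.sum_congr rfl (fun j _ => ?_)
      simp only [GD.val, map_add, map_smul, P_e, pr_nil, smul_add, smul_sub]
      abel
    have h2 : ∑ j, l j • (P N' (g j).mol - P N (g j).mol) = O + Bi := by
      rw [hO, hBi, hS, hB, Finset.sum_filter, Finset.sum_filter, ← Finset.sum_add_distrib]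
      refine Finset.sum_congr rfl (fun j _ => ?_)
      by_cases h1 : (g j).M ≤ N
      · have h2 : ¬ (N < (g j).M ∧ (g j).M ≤ N') := fun h => absurd h.1 (not_lt.2 h1)
        simp [h1, h2]
      · have h1' : N ≤ (g j).M := (not_le.1 h1).le
        by_cases h3 : (g j).M ≤ N'
        · simp [h1, h3, not_le.1 h1, P_mol_zero (g j) h1']
        · have h3' : N' ≤ (g j).M := (not_le.1 h3).le
          simp [h1, h3, P_mol_zero (g j) h1', P_mol_zero (g j) h3']
    rw [h1, h2]
  -- the D part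
  have hDle : nm D ^ 2 ≤ ∑ j, l j * ∑ q ∈ (g j).t, (g j).a q ^ 2 * (ind N' q - ind N q) := by
    have h1 : nm D ≤ ∑ j, l j * nm (P N' (g j).dp - P N (g j).dp) := by
      rw [hD]
      exact nm_sum_le _ l hl0 _
    calc nm D ^ 2 ≤ (∑ j, l j * nm (P N' (g j).dp - P N (g j).dp)) ^ 2 :=
          pow_le_pow_left₀ (apply_nonneg _ _) h1 2
      _ ≤ (∑ j, l j) * ∑ j, l j * nm (P N' (g j).dp - P N (g j).dp) ^ 2 :=
          wcs _ _ _ (fun i _ => hl0 i)
      _ = ∑ j, l j * nm (P N' (g j).dp - P N (g j).dp) ^ 2 := by rw [hl1, one_mul]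
      _ ≤ _ := Finset.sum_le_sum (fun j _ =>
          mul_le_mul_of_nonneg_left (nm_dp_diff hN (g j)) (hl0 j))
  -- the birth part
  have hBle : nm Bi ≤ ε := by
    refine (nm_sum_le B l hl0 _).trans ?_
    refine Finset.sum_le_sum (fun j hj => ?_)
    rw [hB, Finset.mem_filter] at hj
    have := nm_P_mol_le (g j) hj.2.2
    nlinarith [hl0 j]
  have hBle2 : nm Bi ^ 2 ≤ ε := by
    have h0 : 0 ≤ nm Bi := apply_nonneg _ _
    nlinarith
  -- the imbalance
  have hOle := stage_energy S l hl0 g hN (fun j hj => (Finset.mem_filter.1 hj).2)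
  rw [← hO] at hOle
  set U := (S.sigma (fun j => (g j).s)).image (fun ω => pr N (pr N' ((g ω.1).w ω.2))) with hU
  have hUF : ∀ u ∈ U, InF N u := by
    intro u hu
    obtain ⟨ω, _, rfl⟩ := Finset.mem_image.1 hu
    exact pr_InF N _
  have himb : ∑ u ∈ U, (lin (psi u) O) ^ 2 ≤ ε := by
    have h1 : ∀ u ∈ U, (lin (psi u) O) ^ 2 ≤
        ε * ∑ j ∈ B, l j * (if u ∈ (g j).s then |(g j).b u| else 0) ^ 2 := by
      intro u hu
      have hu' := hUF u hu
      have h2 : lin (psi u) O = - lin (psi u) Bi := by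
        have h3 := hbal u hu'
        rw [hdec, map_add, map_add] at h3
        have h4 : lin (psi u) D = 0 := by
          rw [hD, map_sum]
          refine Finset.sum_eq_zero (fun j _ => ?_)
          rw [map_smul, map_sub, psi_P_dp, psi_P_dp, sub_zero, smul_zero]
        rw [h4] at h3
        linarith
      rw [h2, neg_sq, hBi, map_sum]
      simp_rw [map_smul, smul_eq_mul]
      refine (wcs B l _ (fun i _ => hl0 i)).trans ?_
      refine mul_le_mul_of_nonneg_left ?_ hε0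
      refine Finset.sum_le_sum (fun j hj => ?_)
      rw [hB, Finset.mem_filter] at hj
      refine mul_le_mul_of_nonneg_left ?_ (hl0 j)
      have h5 := psi_mol (g j) hj.2.2 (InF_mono hj.2.1.le hu')
      rw [← sq_abs (lin (psi u) (P N' (g j).mol))]
      exact pow_le_pow_left₀ (abs_nonneg _) h5 2
    calc ∑ u ∈ U, (lin (psi u) O) ^ 2 ≤
        ∑ u ∈ U, ε * ∑ j ∈ B, l j * (if u ∈ (g j).s then |(g j).b u| else 0) ^ 2 :=
          Finset.sum_le_sum h1
      _ = ε * ∑ j ∈ B, l j * ∑ u ∈ U, (if u ∈ (g j).s then |(g j).b u| else 0) ^ 2 := by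
          rw [← Finset.mul_sum, Finset.sum_comm]
          simp_rw [Finset.mul_sum]
      _ ≤ ε * ∑ j ∈ B, l j * 1 := by
          refine mul_le_mul_of_nonneg_left (Finset.sum_le_sum (fun j _ =>
            mul_le_mul_of_nonneg_left ?_ (hl0 j))) hε0
          have h6 : ∑ u ∈ U, (if u ∈ (g j).s then |(g j).b u| else 0) ^ 2 =
              ∑ u ∈ U with u ∈ (g j).s, (g j).b u ^ 2 := by
            rw [Finset.sum_filter]
            refine Finset.sum_congr rfl (fun u _ => ?_)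
            split_ifs
            · exact sq_abs _
            · norm_num
          rw [h6]
          refine (Finset.sum_le_sum_of_subset_of_nonneg ?_ (fun u _ _ => sq_nonneg _)).trans (g j).hb
          intro u hu
          exact (Finset.mem_filter.1 hu).2
      _ = ε * ε := by simp [hε]
      _ ≤ ε := by nlinarith
  have hO2 : nm O ^ 2 ≤ 2 * (∑ i ∈ S, ∑ j ∈ S, l i * l j * (G N (g i) (g j) - G N' (g i) (g j))) + ε := by
    linarith
  have htri : nm (P N' z - P N z) ≤ nm O + nm Bi + nm D := by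
    rw [hdec]
    exact (map_add_le_add nm _ _).trans (by linarith [map_add_le_add nm O Bi])
  have h0 : 0 ≤ nm (P N' z - P N z) := apply_nonneg _ _
  have hsq : nm (P N' z - P N z) ^ 2 ≤ 3 * (nm O ^ 2 + nm Bi ^ 2 + nm D ^ 2) := by
    have h1 : nm (P N' z - P N z) ^ 2 ≤ (nm O + nm Bi + nm D) ^ 2 := pow_le_pow_left₀ h0 htri 2
    nlinarith [sq_nonneg (nm O - nm Bi), sq_nonneg (nm O - nm D), sq_nonneg (nm Bi - nm D)]
  linarith

theorem main_ball (z : V) (hz : z ∈ Ball) (N : ℕ → ℕ) (hN : Monotone N) (n : ℕ)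
    (hbal : ∀ k < n, ∀ u, InF (N k) u → lin (psi u) (P (N (k+1)) z - P (N k) z) = 0) :
    ∑ k ∈ Finset.range n, nm (P (N (k+1)) z - P (N k) z) ^ 2 ≤ 15 := by
  classical
  obtain ⟨ι, _, l, x, hl0, hl1, hx, hxz⟩ := mem_convexHull_iff_exists_fintype.1 hz
  choose g hg using hx
  have hz' : z = ∑ i, l i • (g i).val := by
    rw [← hxz]
    exact Finset.sum_congr rfl (fun i _ => by rw [hg i])
  set E : ℕ → ℝ := fun k => ∑ i with (g i).M ≤ N k, ∑ j with (g j).M ≤ N k,
        l i * l j * (G (N k) (g i) (g j) - G (N (k+1)) (g i) (g j)) with hE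
  set ep : ℕ → ℝ := fun k => ∑ j with N k < (g j).M ∧ (g j).M ≤ N (k+1), l j with hep
  set de : ℕ → ℝ := fun k => ∑ j, l j * ∑ q ∈ (g j).t, (g j).a q ^ 2 *
    (ind (N (k+1)) q - ind (N k) q) with hde
  have h1 : ∑ k ∈ Finset.range n, nm (P (N (k+1)) z - P (N k) z) ^ 2 ≤
      ∑ k ∈ Finset.range n, 3 * (2 * E k + 2 * ep k + de k) := by
    refine Finset.sum_le_sum (fun k hk => ?_)
    exact per_stage l hl0 hl1 g (hN (Nat.le_succ k)) z hz'
      (fun u hu => hbal k (Finset.mem_range.1 hk) u hu)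
  have hEs : ∑ k ∈ Finset.range n, E k ≤ 1 := by
    have h2 : ∀ k, E k ≤ ∑ i, ∑ j, l i * l j * (gam (N k) (g i) (g j) - gam (N (k+1)) (g i) (g j)) := by
      intro k
      have hnn : ∀ i j, 0 ≤ l i * l j * (gam (N k) (g i) (g j) - gam (N (k+1)) (g i) (g j)) :=
        fun i j => mul_nonneg (mul_nonneg (hl0 i) (hl0 j))
          (sub_nonneg.2 (gam_anti (hN (Nat.le_succ k)) _ _))
      calc E k = ∑ i with (g i).M ≤ N k, ∑ j with (g j).M ≤ N k,
            l i * l j * (gam (N k) (g i) (g j) - gam (N (k+1)) (g i) (g j)) := by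
            refine Finset.sum_congr rfl (fun i hi => Finset.sum_congr rfl (fun j hj => ?_))
            have hi' := (Finset.mem_filter.1 hi).2
            have hj' := (Finset.mem_filter.1 hj).2
            have hs : N k ≤ N (k+1) := hN (Nat.le_succ k)
            simp only [gam, hi', hj', hi'.trans hs, hj'.trans hs, and_self, if_true]
        _ ≤ ∑ i with (g i).M ≤ N k, ∑ j,
            l i * l j * (gam (N k) (g i) (g j) - gam (N (k+1)) (g i) (g j)) :=
            Finset.sum_le_sum (fun i _ => Finset.sum_le_sum_of_subset_of_nonneg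
              (Finset.filter_subset _ _) (fun j _ _ => hnn i j))
        _ ≤ _ := Finset.sum_le_sum_of_subset_of_nonneg
              (Finset.filter_subset _ _) (fun i _ _ => Finset.sum_nonneg (fun j _ => hnn i j))
    calc ∑ k ∈ Finset.range n, E k ≤ ∑ k ∈ Finset.range n, ∑ i, ∑ j, l i * l j *
          (gam (N k) (g i) (g j) - gam (N (k+1)) (g i) (g j)) :=
          Finset.sum_le_sum (fun k _ => h2 k)
      _ = ∑ i, ∑ j, l i * l j * (gam (N 0) (g i) (g j) - gam (N n) (g i) (g j)) := by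
          rw [Finset.sum_comm]
          refine Finset.sum_congr rfl (fun i _ => ?_)
          rw [Finset.sum_comm]
          refine Finset.sum_congr rfl (fun j _ => ?_)
          rw [← Finset.mul_sum]
          congr 1
          exact Finset.sum_range_sub' (fun k => gam (N k) (g i) (g j)) n
      _ ≤ ∑ i, ∑ j, l i * l j * 1 := by
          refine Finset.sum_le_sum (fun i _ => Finset.sum_le_sum (fun j _ => ?_))
          refine mul_le_mul_of_nonneg_left ?_ (mul_nonneg (hl0 i) (hl0 j))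
          linarith [gam_le_one (N 0) (g i) (g j), gam_nonneg (N n) (g i) (g j)]
      _ = 1 := by
          simp_rw [mul_one, ← Finset.mul_sum, hl1, mul_one]
          exact hl1
  have heps : ∑ k ∈ Finset.range n, ep k ≤ 1 := by
    have h2 : ∀ k, ep k = ∑ j, l j * ((if (g j).M ≤ N (k+1) then (1:ℝ) else 0) -
        (if (g j).M ≤ N k then (1:ℝ) else 0)) := by
      intro k
      change (∑ j with N k < (g j).M ∧ (g j).M ≤ N (k+1), l j) = _
      rw [Finset.sum_filter]
      refine Finset.sum_congr rfl (fun j _ => ?_)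
      by_cases h3 : (g j).M ≤ N k
      · have h4 : (g j).M ≤ N (k+1) := h3.trans (hN (Nat.le_succ k))
        simp [h3, h4, not_lt.2 h3]
      · by_cases h4 : (g j).M ≤ N (k+1)
        · simp [h3, h4, not_le.1 h3]
        · simp [h3, h4]
    simp_rw [h2]
    rw [Finset.sum_comm]
    calc ∑ j, ∑ k ∈ Finset.range n, l j * ((if (g j).M ≤ N (k+1) then (1:ℝ) else 0) -
        (if (g j).M ≤ N k then (1:ℝ) else 0)) ≤ ∑ j, l j * 1 := by
          refine Finset.sum_le_sum (fun j _ => ?_)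
          rw [← Finset.mul_sum]
          refine mul_le_mul_of_nonneg_left ?_ (hl0 j)
          rw [Finset.sum_range_sub (fun k => if (g j).M ≤ N k then (1:ℝ) else 0) n]
          split_ifs <;> norm_num
      _ = 1 := by simp [hl1]
  have hdes : ∑ k ∈ Finset.range n, de k ≤ 1 := by
    rw [hde]
    rw [Finset.sum_comm]
    calc ∑ j, ∑ k ∈ Finset.range n, l j * ∑ q ∈ (g j).t, (g j).a q ^ 2 *
          (ind (N (k+1)) q - ind (N k) q) ≤ ∑ j, l j * 1 := by
          refine Finset.sum_le_sum (fun j _ => ?_)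
          rw [← Finset.mul_sum]
          refine mul_le_mul_of_nonneg_left ?_ (hl0 j)
          rw [Finset.sum_comm]
          refine le_trans (Finset.sum_le_sum (fun q _ => ?_)) (g j).ha
          rw [← Finset.mul_sum, Finset.sum_range_sub (fun k => ind (N k) q) n]
          have := ind_le_one (N n) q
          have := ind_nonneg (N 0) q
          nlinarith [sq_nonneg ((g j).a q)]
      _ = 1 := by simp [hl1]
  have h3 : ∑ k ∈ Finset.range n, 3 * (2 * E k + 2 * ep k + de k) =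
      3 * (2 * ∑ k ∈ Finset.range n, E k + 2 * ∑ k ∈ Finset.range n, ep k +
        ∑ k ∈ Finset.range n, de k) := by
    simp only [Finset.mul_sum, ← Finset.sum_add_distrib]
  linarith

end Pool.Agent.Helper44.AUC
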