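import Pool.Agent.Helper44.AUC.Game

set_option autoImplicit false

open scoped BigOperators Pointwise Topology

namespace Pool.Agent.Helper44.AUC

noncomputable def phi (v : Nd) (α : ℕ) (w : Nd) : ℝ := jf v (fun a => if a.1 = α then 1 else 0) w

lemma abs_phi_le (v : Nd) (α : ℕ) (w : Nd) : |phi v α w| ≤ 1 := by
  rcases jf_eq_or v (fun a => if a.1 = α then (1:ℝ) else 0) w with h | ⟨a, ha⟩
  · rw [phi, h]; simp
  · rw [phi, ha]
    split_ifs <;> simp

lemma phi_dd (v v' : Nd) (α α' : ℕ) :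
    lin (phi v α) (dd v' α') = if v' = v ∧ α' = α then 1 else 0 := by
  unfold dd
  rw [map_sub, map_smul, map_add, lin_e, lin_e, lin_e]
  by_cases h : v' = v
  · subst h
    by_cases h2 : α' = α
    · simp [phi, jf_cons_self, jf_self, h2]; norm_num
    · simp [phi, jf_cons_self, jf_self, h2]
  · simp only [phi, jf_cons_ne _ _ h, smul_eq_mul, h, false_and, if_false]
    ring

lemma abs_b_le (g : GD) {v : Nd} (hv : v ∈ g.s) : |g.b v| ≤ 1 := by
  have h1 : g.b v ^ 2 ≤ ∑ v ∈ g.s, g.b v ^ 2 :=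
    Finset.single_le_sum (f := fun v => g.b v ^ 2) (fun _ _ => sq_nonneg _) hv
  have h2 : g.b v ^ 2 ≤ 1 := h1.trans g.hb
  exact abs_le_one_iff_mul_self_le_one.2 (by nlinarith)

lemma abs_a_le (g : GD) {v : Nd × ℕ} (hv : v ∈ g.t) : |g.a v| ≤ 1 := by
  have h1 : g.a v ^ 2 ≤ ∑ v ∈ g.t, g.a v ^ 2 :=
    Finset.single_le_sum (f := fun v => g.a v ^ 2) (fun _ _ => sq_nonneg _) hv
  have h2 : g.a v ^ 2 ≤ 1 := h1.trans g.ha
  exact abs_le_one_iff_mul_self_le_one.2 (by nlinarith)

lemma phi_val_le (v : Nd) (α : ℕ) (g : GD) : |lin (phi v α) g.val| ≤ 3 := by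
  classical
  have h1 : |lin (phi v α) g.mol| ≤ 2 := by
    unfold GD.mol
    rw [map_sum]
    have h2 : ∀ v' ∈ g.s, v' ≠ pr g.M v → lin (phi v α) (g.b v' • (e (g.w v') - e v')) = 0 := by
      intro v' hv' hne
      rw [map_smul, map_sub, lin_e, lin_e]
      have h3 : pr g.M (g.w v') ≠ pr g.M v := by rw [g.hw v' hv']; exact hne
      have h4 : phi v α (g.w v') = phi v α (pr g.M (g.w v')) := jf_pr_of_ne _ _ _ h3
      rw [h4, g.hw v' hv', sub_self, smul_zero]
    by_cases h5 : pr g.M v ∈ g.s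
    · rw [Finset.sum_eq_single_of_mem _ h5 h2, map_smul, map_sub, lin_e, lin_e, smul_eq_mul,
        abs_mul]
      have h6 := abs_b_le g h5
      have h7 : |phi v α (g.w (pr g.M v)) - phi v α (pr g.M v)| ≤ 2 := by
        have a1 := abs_phi_le v α (g.w (pr g.M v))
        have a2 := abs_phi_le v α (pr g.M v)
        have := abs_sub (phi v α (g.w (pr g.M v))) (phi v α (pr g.M v))
        linarith
      nlinarith [abs_nonneg (g.b (pr g.M v)),
        abs_nonneg (phi v α (g.w (pr g.M v)) - phi v α (pr g.M v))]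
    · rw [Finset.sum_eq_zero (fun v' hv' => h2 v' hv' (fun h => h5 (h ▸ hv')))]
      norm_num
  have h3 : |lin (phi v α) g.dp| ≤ 1 := by
    unfold GD.dp
    rw [map_sum]
    have h2 : ∀ q ∈ g.t, q ≠ (v, α) → lin (phi v α) (g.a q • dd q.1 q.2) = 0 := by
      rintro ⟨v', α'⟩ _ hne
      rw [map_smul, phi_dd]
      have : ¬ (v' = v ∧ α' = α) := by
        rintro ⟨rfl, rfl⟩; exact hne rfl
      simp [this]
    by_cases h5 : (v, α) ∈ g.t
    · rw [Finset.sum_eq_single_of_mem _ h5 h2, map_smul, phi_dd]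
      simpa using abs_a_le g h5
    · rw [Finset.sum_eq_zero (fun v' hv' => h2 v' hv' (fun h => h5 (h ▸ hv')))]
      norm_num
  have h4 : lin (phi v α) (g.r • e []) = 0 := by
    rw [map_smul, lin_e]
    simp [phi, jf]
  unfold GD.val
  rw [map_add, map_add, h4, add_zero]
  exact (abs_add_le _ _).trans (by linarith)

lemma phi_Ball {z : V} (hz : z ∈ Ball) (v : Nd) (α : ℕ) : |lin (phi v α) z| ≤ 3 := by
  have h1 : Ball ⊆ (lin (phi v α)) ⁻¹' (Metric.closedBall (0:ℝ) 3) := by
    refine convexHull_min ?_ ?_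
    · rintro _ ⟨g, rfl⟩
      have := phi_val_le v α g
      simpa [Real.norm_eq_abs] using this
    · exact (convex_closedBall (0:ℝ) 3).linear_preimage _
  have := h1 hz
  simpa [Real.norm_eq_abs] using this

lemma phi_le (z : V) (v : Nd) (α : ℕ) : |lin (phi v α) z| ≤ 3 * nm z := by
  refine le_of_forall_pos_le_add (fun ε hε => ?_)
  obtain ⟨s, hs0, hsr, z', hz', rfl⟩ := exists_of_nm_lt (show nm z < nm z + ε / 3 by linarith)
  simp only [map_smul, smul_eq_mul, abs_mul, abs_of_pos hs0] at hsr ⊢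
  have := phi_Ball hz' v α
  have h2 : nm (s • z') + ε / 3 > s := hsr
  have h3 : s * |lin (phi v α) z'| ≤ s * 3 := mul_le_mul_of_nonneg_left this hs0.le
  linarith

lemma nm_dd_ge (v : Nd) (α : ℕ) : 1/3 ≤ nm (dd v α) := by
  have h := phi_le (dd v α) v α
  rw [phi_dd] at h
  simp at h
  linarith

/-- the vectors `dd v α` tend weakly to zero; quantitative finite dimensional version -/
lemma dd_approx (Z : Submodule ℝ X) (hZ : IsClosed (Z : Set X)) (hfd : FiniteDimensional ℝ (X ⧸ Z))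
    (v : Nd) {ε : ℝ} (hε : 0 < ε) : ∃ α : ℕ, ∃ y ∈ Z, ‖J (dd v α) - y‖ ≤ ε := by
  have : IsClosed (Z : Set X) := hZ
  set q : ℕ → X ⧸ Z := fun α => Submodule.Quotient.mk (J (dd v α)) with hq
  -- every functional on the quotient tends to zero along q
  have hfun : ∀ f : (X ⧸ Z) →L[ℝ] ℝ, Filter.Tendsto (fun α => f (q α)) Filter.atTop (nhds 0) := by
    intro f
    have hb : ∀ z : V, |f (Submodule.Quotient.mk (J z))| ≤ ‖f‖ * nm z := by
      intro z
      have h1 := f.le_opNorm (Submodule.Quotient.mk (J z))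
      have h2 : ‖(Submodule.Quotient.mk (J z) : X ⧸ Z)‖ ≤ ‖J z‖ := Submodule.Quotient.norm_mk_le _ _
      rw [norm_J] at h2
      rw [Real.norm_eq_abs] at h1
      exact h1.trans (mul_le_mul_of_nonneg_left h2 (norm_nonneg _))
    have hsum : ∀ s : Finset ℕ, ∑ α ∈ s, (f (q α)) ^ 2 ≤ ‖f‖ ^ 2 := by
      intro s
      set S := ∑ α ∈ s, (f (q α)) ^ 2 with hS
      have hS0 : 0 ≤ S := Finset.sum_nonneg (fun _ _ => sq_nonneg _)
      set z : V := ∑ α ∈ s, (f (q α)) • dd v α with hz
      have h1 : f (Submodule.Quotient.mk (J z)) = S := by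
        have : f (Submodule.Quotient.mk (J z)) =
            ((f : (X ⧸ Z) →ₗ[ℝ] ℝ) ∘ₗ Z.mkQ ∘ₗ J) z := rfl
        rw [this, hz, map_sum, hS]
        refine Finset.sum_congr rfl (fun α _ => ?_)
        rw [map_smul, smul_eq_mul, sq]
        rfl
      have h2 : nm z ^ 2 ≤ S := by
        have h3 := nm_dp_sq_le (s.image (fun α => (v, α))) (fun p => f (q p.2))
        rw [Finset.sum_image (by intro a _ b _ hab; simpa using hab),
          Finset.sum_image (by intro a _ b _ hab; simpa using hab)] at h3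
        exact h3
      have h4 := hb z
      rw [h1, abs_of_nonneg hS0] at h4
      have h5 : S ^ 2 ≤ ‖f‖ ^ 2 * S := by
        calc S ^ 2 ≤ (‖f‖ * nm z) ^ 2 := pow_le_pow_left₀ hS0 h4 2
          _ = ‖f‖ ^ 2 * nm z ^ 2 := by ring
          _ ≤ ‖f‖ ^ 2 * S := mul_le_mul_of_nonneg_left h2 (sq_nonneg _)
      rcases hS0.eq_or_lt with h6 | h6
      · rw [← h6]; positivity
      · nlinarith
    have hsummable : Summable (fun α => (f (q α)) ^ 2) :=
      summable_of_sum_le (fun _ => sq_nonneg _) hsum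
    have h7 := hsummable.tendsto_atTop_zero
    have h8 : Filter.Tendsto (fun α => |f (q α)|) Filter.atTop (nhds 0) := by
      have := (Real.continuous_sqrt.tendsto 0).comp h7
      simp only [Function.comp_def, Real.sqrt_sq_eq_abs, Real.sqrt_zero] at this
      exact this
    exact (tendsto_zero_iff_abs_tendsto_zero _).2 h8
  have hq0 : Filter.Tendsto q Filter.atTop (nhds 0) := by
    set b := Module.finBasis ℝ (X ⧸ Z)
    have h1 : q = fun α => ∑ i, (b.repr (q α) i) • b i := by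
      funext α
      exact (b.sum_repr (q α)).symm
    rw [h1]
    have h2 : (0 : X ⧸ Z) = ∑ i, (0:ℝ) • b i := by simp
    rw [h2]
    refine tendsto_finsetSum _ (fun i _ => ?_)
    refine Filter.Tendsto.smul_const ?_ (b i)
    exact hfun (LinearMap.toContinuousLinearMap (b.coord i))
  have h1 : ∀ᶠ α in Filter.atTop, ‖q α‖ < ε := by
    have h2 := (tendsto_zero_iff_norm_tendsto_zero.1 hq0)
    exact h2.eventually (gt_mem_nhds hε)
  obtain ⟨α, hα⟩ := h1.exists
  obtain ⟨m, hm, hmn⟩ := Submodule.Quotient.norm_mk_lt (q α) (sub_pos.2 hα)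
  refine ⟨α, J (dd v α) - m, ?_, ?_⟩
  · have h3 : (Submodule.Quotient.mk (J (dd v α)) : X ⧸ Z) = Submodule.Quotient.mk m := hm.symm
    exact (Submodule.Quotient.eq Z).1 h3
  · have h4 : J (dd v α) - (J (dd v α) - m) = m := by abel
    rw [h4]
    linarith

lemma mid (v : Nd) (α : ℕ) :
    J (e v) + J (dd v α) = (1/2 : ℝ) • (J (e ((α, true) :: v)) + J (e ((α, false) :: v))) := by
  rw [← map_add, ← map_add, ← map_smul]
  congr 1
  unfold dd
  abel

lemma seminorm_convex {p : Seminorm ℝ X} {x y : X} {t r η : ℝ} (hx : p x = 1) (ht : 0 < t)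
    (htr : t ≤ r) (hη : 0 ≤ η) (h : 1 + η ≤ p (x + t • y)) : 1 + η ≤ p (x + r • y) := by
  have hr : 0 < r := ht.trans_le htr
  have h1 : x + t • y = (1 - t / r) • x + (t / r) • (x + r • y) := by
    rw [smul_add, smul_smul, div_mul_cancel₀ _ hr.ne', ← add_assoc, ← add_smul]
    simp
  have h2 : 0 ≤ 1 - t / r := by
    rw [sub_nonneg, div_le_one hr]; exact htr
  have h3 : 0 < t / r := by positivity
  have h4 : p (x + t • y) ≤ (1 - t / r) * 1 + (t / r) * p (x + r • y) := by
    rw [h1]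
    refine (map_add_le_add p _ _).trans ?_
    rw [map_smul_eq_mul, map_smul_eq_mul, Real.norm_of_nonneg h2, Real.norm_of_nonneg h3.le, hx]
  have h5 : (t / r) * (1 + η / (t / r)) ≤ (t / r) * p (x + r • y) := by
    have : (t / r) * (1 + η / (t / r)) = t / r + η := by
      field_simp
    rw [this]
    linarith
  have h6 : 1 + η / (t / r) ≤ p (x + r • y) := le_of_mul_le_mul_left h5 h3
  have h7 : η ≤ η / (t / r) := by
    rw [le_div_iff₀ h3]
    have : t / r ≤ 1 := by linarith
    nlinarith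
  linarith

theorem not_AUC (p : Seminorm ℝ X) (a b : ℝ) (ha : 0 < a) (hb : 0 < b)
    (hab : ∀ x : X, a * ‖x‖ ≤ p x ∧ p x ≤ b * ‖x‖)
    (hAUC : ∀ t : ℝ, 0 < t → 0 < ⨅ (x : X) (_ : p x = 1), dl (fun v => p v) 1 t x) : False := by
  -- the supremum of the norms of the tree vectors
  set S : ℝ := ⨆ v : Nd, p (J (e v)) with hS
  have hbdd : BddAbove (Set.range (fun v : Nd => p (J (e v)))) := by
    refine ⟨b, ?_⟩
    rintro _ ⟨v, rfl⟩
    have h1 := (hab (J (e v))).2
    rw [norm_J] at h1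
    have h2 := nm_e_le v
    show p (J (e v)) ≤ b
    nlinarith
  have hle : ∀ v, p (J (e v)) ≤ S := fun v => le_ciSup hbdd v
  have hS0 : 0 < S := by
    by_contra hcon
    have h0 : ∀ v, p (J (e v)) ≤ 0 := fun v => (hle v).trans (not_lt.1 hcon)
    have h1 : p (J (dd [] 0)) ≤ 0 := by
      have h2 : J (dd [] 0) = (1/2 : ℝ) • (J (e [(0, true)]) + J (e [(0, false)])) - J (e []) := by
        rw [← mid [] 0]; abel
      rw [h2]
      refine (map_sub_le_add p _ _).trans ?_
      rw [map_smul_eq_mul]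
      have h3 := map_add_le_add p (J (e [(0, true)])) (J (e [(0, false)]))
      have h4 := h0 [(0, true)]
      have h5 := h0 [(0, false)]
      have h6 := h0 []
      have h7 : ‖(1/2 : ℝ)‖ = 1/2 := by norm_num
      rw [h7]
      linarith
    have h2 := (hab (J (dd [] 0))).1
    rw [norm_J] at h2
    have h3 := nm_dd_ge [] 0
    nlinarith
  set t : ℝ := a / 6 / S with ht
  have ht0 : 0 < t := by positivity
  obtain ⟨η', hη'0, hη'⟩ := EReal.lt_iff_exists_real_btwn.1 (hAUC t ht0)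
  have hη0 : 0 < η' := by exact_mod_cast hη'0
  -- choose a node with almost maximal norm
  have hlt : S / (1 + η' / 2) < S := by
    rw [div_lt_iff₀ (by positivity)]
    nlinarith
  obtain ⟨v, hv⟩ := exists_lt_of_lt_ciSup (hS ▸ hlt)
  set lam := p (J (e v)) with hlam
  have hlam0 : 0 < lam := lt_trans (by positivity) hv
  have hlamS : lam ≤ S := hle v
  set x : X := lam⁻¹ • J (e v) with hx
  have hpx : p x = 1 := by
    rw [hx, map_smul_eq_mul, Real.norm_of_nonneg (by positivity), ← hlam, inv_mul_cancel₀ hlam0.ne']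
  have h1 : (η' : EReal) < dl (fun v => p v) 1 t x :=
    lt_of_lt_of_le hη' (iInf_le_of_le x (iInf_le _ hpx))
  change (η' : EReal) < ⨆ (Y : Submodule ℝ X) (_ : IsClosed (Y : Set X))
      (_ : FiniteDimensional ℝ (X ⧸ Y)),
        ⨅ (y : X) (_ : y ∈ Y) (_ : p y = 1), ((p (x + t • y) - 1 : ℝ) : EReal) at h1
  obtain ⟨Z, hZ⟩ := lt_iSup_iff.1 h1
  obtain ⟨hZc, hZ⟩ := lt_iSup_iff.1 hZ
  obtain ⟨hZf, hZ⟩ := lt_iSup_iff.1 hZ
  have h2 : ∀ y ∈ Z, p y = 1 → 1 + η' ≤ p (x + t • y) := by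
    intro y hy hy1
    have h3 : (η' : EReal) < ((p (x + t • y) - 1 : ℝ) : EReal) :=
      lt_of_lt_of_le hZ (iInf_le_of_le y (iInf_le_of_le hy (iInf_le _ hy1)))
    have h4 : η' < p (x + t • y) - 1 := by exact_mod_cast h3
    linarith
  -- a good approximation
  set gap : ℝ := lam * (1 + η') - S with hgap
  have hgap0 : 0 < gap := by
    have h3 : S < lam * (1 + η' / 2) := by
      rwa [div_lt_iff₀ (by positivity)] at hv
    nlinarith
  set ε : ℝ := min (a / 6 / b) (gap / (2 * b)) with hε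
  have hε0 : 0 < ε := by
    apply lt_min <;> positivity
  obtain ⟨α, y, hy, hyε⟩ := dd_approx Z hZc hZf v hε0
  have hbε1 : b * ε ≤ a / 6 := by
    have : ε ≤ a / 6 / b := min_le_left _ _
    calc b * ε ≤ b * (a / 6 / b) := mul_le_mul_of_nonneg_left this hb.le
      _ = a / 6 := by field_simp
  have hbε2 : b * ε ≤ gap / 2 := by
    have : ε ≤ gap / (2 * b) := min_le_right _ _
    calc b * ε ≤ b * (gap / (2 * b)) := mul_le_mul_of_nonneg_left this hb.le
      _ = gap / 2 := by field_simp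
  have hdiff : p (J (dd v α) - y) ≤ b * ε :=
    ((hab _).2).trans (mul_le_mul_of_nonneg_left hyε hb.le)
  have hpy : a / 6 ≤ p y := by
    have h3 := (hab (J (dd v α))).1
    rw [norm_J] at h3
    have h4 := nm_dd_ge v α
    have h5 : p (J (dd v α)) ≤ p (J (dd v α) - y) + p y := by
      have := map_add_le_add p (J (dd v α) - y) y
      simpa using this
    nlinarith
  have hpy0 : 0 < p y := lt_of_lt_of_le (by positivity) hpy
  set y' : X := (p y)⁻¹ • y with hy'
  have hy'Z : y' ∈ Z := Z.smul_mem _ hy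
  have hpy' : p y' = 1 := by
    rw [hy', map_smul_eq_mul, Real.norm_of_nonneg (by positivity), inv_mul_cancel₀ hpy0.ne']
  set r : ℝ := p y / lam with hr
  have htr : t ≤ r := by
    rw [ht, hr]
    exact div_le_div₀ hpy0.le hpy hlam0 hlamS
  have h3 := seminorm_convex hpx ht0 htr hη0.le (h2 y' hy'Z hpy')
  have h4 : lam • (x + r • y') = J (e v) + y := by
    rw [smul_add, hx, smul_smul, mul_inv_cancel₀ hlam0.ne', one_smul, hy', smul_smul, smul_smul]
    have : lam * r * (p y)⁻¹ = 1 := by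
      rw [hr]; field_simp
    rw [this, one_smul]
  have h5 : lam * (1 + η') ≤ p (J (e v) + y) := by
    rw [← h4, map_smul_eq_mul, Real.norm_of_nonneg hlam0.le]
    exact mul_le_mul_of_nonneg_left h3 hlam0.le
  have h6 : p (J (e v) + y) ≤ p (J (e v) + J (dd v α)) + p (J (dd v α) - y) := by
    have := map_sub_le_add p (J (e v) + J (dd v α)) (J (dd v α) - y)
    have h7 : J (e v) + J (dd v α) - (J (dd v α) - y) = J (e v) + y := by abel
    rwa [h7] at this
  have h7 : p (J (e v) + J (dd v α)) ≤ S := by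
    rw [mid, map_smul_eq_mul]
    have h8 := map_add_le_add p (J (e ((α, true) :: v))) (J (e ((α, false) :: v)))
    have h9 := hle ((α, true) :: v)
    have h10 := hle ((α, false) :: v)
    have h11 : ‖(1/2 : ℝ)‖ = 1/2 := by norm_num
    rw [h11]
    linarith
  have h8 : lam * (1 + η') ≤ S + gap / 2 := by linarith
  have h9 : gap ≤ gap / 2 := by
    have : gap = lam * (1 + η') - S := hgap
    linarith
  linarith

end Pool.Agent.Helper44.AUC
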