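import Pool.Agent.Helper44.AUC.Tree

set_option autoImplicit false

open scoped BigOperators Pointwise

namespace Pool.Agent.Helper44.AUC

/-- The underlying vector space: finitely supported functions on the tree. -/
abbrev V := Nd →₀ ℝ

noncomputable def e (w : Nd) : V := Finsupp.single w 1

noncomputable def dd (v : Nd) (α : ℕ) : V :=
  (1 / 2 : ℝ) • (e ((α, true) :: v) + e ((α, false) :: v)) - e v

noncomputable def P (N : ℕ) : V →ₗ[ℝ] V := Finsupp.lmapDomain ℝ ℝ (pr N)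

lemma P_e (N : ℕ) (w : Nd) : P N (e w) = e (pr N w) := by
  simp [P, e, Finsupp.lmapDomain_apply, Finsupp.mapDomain_single]

noncomputable def lin (f : Nd → ℝ) : V →ₗ[ℝ] ℝ := Finsupp.linearCombination ℝ f

lemma lin_e (f : Nd → ℝ) (w : Nd) : lin f (e w) = f w := by
  simp [lin, e, Finsupp.linearCombination_single]

lemma P_P {M N : ℕ} (h : M ≤ N) (z : V) : P M (P N z) = P M z := by
  have : (P M).comp (P N) = P M := by
    apply Finsupp.lhom_ext
    intro w c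
    simp only [P, LinearMap.comp_apply, Finsupp.lmapDomain_apply, Finsupp.mapDomain_single,
      pr_pr h]
  exact LinearMap.congr_fun this z

lemma P_dd (N : ℕ) (v : Nd) (α : ℕ) :
    P N (dd v α) = if InF N ((α, true) :: v) then dd v α else 0 := by
  unfold dd
  simp only [map_sub, map_smul, map_add, P_e]
  by_cases h : InF N ((α, true) :: v)
  · rw [if_pos h, pr_of_InF h, pr_of_InF (InF_swap h), pr_of_InF (InF_tail h)]
  · have h' : ¬ InF N ((α, false) :: v) := fun h' => h (InF_swap h')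
    rw [if_neg h, pr_cons_of_not h, pr_cons_of_not h', ← two_smul ℝ (e (pr N v)), smul_smul]
    norm_num

/-- Data describing a generator of the unit ball. -/
structure GD where
  M : ℕ
  s : Finset Nd
  b : Nd → ℝ
  w : Nd → Nd
  t : Finset (Nd × ℕ)
  a : Nd × ℕ → ℝ
  r : ℝ
  hb : ∑ v ∈ s, b v ^ 2 ≤ 1
  hw : ∀ v ∈ s, pr M (w v) = v
  ha : ∑ q ∈ t, a q ^ 2 ≤ 1
  hr : |r| ≤ 1

noncomputable def GD.mol (g : GD) : V := ∑ v ∈ g.s, g.b v • (e (g.w v) - e v)
noncomputable def GD.dp (g : GD) : V := ∑ q ∈ g.t, g.a q • dd q.1 q.2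
noncomputable def GD.val (g : GD) : V := g.mol + g.dp + g.r • e []

noncomputable def Ball : Set V := convexHull ℝ (Set.range GD.val)

lemma convex_Ball : Convex ℝ Ball := convex_convexHull ℝ _

lemma balanced_range : Balanced ℝ (Set.range GD.val) := by
  rw [balanced_iff_smul_mem]
  rintro c hc _ ⟨g, rfl⟩
  have hc1 : |c| ≤ 1 := hc
  have hc2 : c ^ 2 ≤ 1 := by
    have := sq_abs c
    nlinarith [abs_nonneg c]
  refine ⟨⟨g.M, g.s, fun v => c * g.b v, g.w, g.t, fun q => c * g.a q, c * g.r, ?_, g.hw, ?_, ?_⟩, ?_⟩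
  · simp_rw [mul_pow]
    rw [← Finset.mul_sum]
    have h0 : 0 ≤ ∑ v ∈ g.s, g.b v ^ 2 := Finset.sum_nonneg (fun _ _ => sq_nonneg _)
    nlinarith [g.hb, sq_nonneg c]
  · simp_rw [mul_pow]
    rw [← Finset.mul_sum]
    have h0 : 0 ≤ ∑ v ∈ g.t, g.a v ^ 2 := Finset.sum_nonneg (fun _ _ => sq_nonneg _)
    nlinarith [g.ha, sq_nonneg c]
  · rw [abs_mul]
    nlinarith [g.hr, abs_nonneg c, abs_nonneg g.r]
  · simp only [GD.val, GD.mol, GD.dp, smul_add, Finset.smul_sum, smul_smul]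

lemma balanced_Ball : Balanced ℝ Ball := balanced_range.convexHull

lemma val_mem_Ball (g : GD) : g.val ∈ Ball := subset_convexHull ℝ _ ⟨g, rfl⟩

lemma InF_zero {w : Nd} (h : InF 0 w) : w = [] := by
  have := h.1
  exact List.length_eq_zero_iff.1 (by omega)

lemma pr_zero (w : Nd) : pr 0 w = [] := InF_zero (pr_InF 0 w)

/-- generator with only a molecule part -/
noncomputable def molG (M : ℕ) (s : Finset Nd) (b : Nd → ℝ) (w : Nd → Nd)
    (hb : ∑ v ∈ s, b v ^ 2 ≤ 1) (hw : ∀ v ∈ s, pr M (w v) = v) : GD :=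
  ⟨M, s, b, w, ∅, 0, 0, hb, hw, by simp, by simp⟩

lemma mol_mem_Ball (M : ℕ) (s : Finset Nd) (b : Nd → ℝ) (w : Nd → Nd)
    (hb : ∑ v ∈ s, b v ^ 2 ≤ 1) (hw : ∀ v ∈ s, pr M (w v) = v) :
    ∑ v ∈ s, b v • (e (w v) - e v) ∈ Ball := by
  have := val_mem_Ball (molG M s b w hb hw)
  simpa [molG, GD.val, GD.mol, GD.dp] using this

lemma dp_mem_Ball (t : Finset (Nd × ℕ)) (a : Nd × ℕ → ℝ) (ha : ∑ q ∈ t, a q ^ 2 ≤ 1) :
    ∑ q ∈ t, a q • dd q.1 q.2 ∈ Ball := by
  have := val_mem_Ball ⟨0, ∅, 0, id, t, a, 0, by simp, by simp, ha, by simp⟩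
  simpa [GD.val, GD.mol, GD.dp] using this

lemma e_mem_Ball (w : Nd) : e w ∈ Ball := by
  have := val_mem_Ball ⟨0, {[]}, fun _ => 1, fun _ => w, ∅, 0, 1, by simp,
    by intro v hv; rw [Finset.mem_singleton.1 hv, pr_zero], by simp, by simp⟩
  simpa [GD.val, GD.mol, GD.dp] using this

lemma zero_mem_Ball : (0 : V) ∈ Ball := by
  have := mol_mem_Ball 0 ∅ 0 id (by simp) (by simp)
  simpa using this

lemma exists_mem_smul_Ball (z : V) : ∃ r : ℝ, 0 < r ∧ z ∈ r • Ball := by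
  induction z using Finsupp.induction_linear with
  | zero => exact ⟨1, one_pos, by rw [one_smul]; exact zero_mem_Ball⟩
  | add f g hf hg =>
    obtain ⟨r, hr, h1⟩ := hf
    obtain ⟨s, hs, h2⟩ := hg
    refine ⟨r + s, by positivity, ?_⟩
    rw [convex_Ball.add_smul hr.le hs.le]
    exact Set.add_mem_add h1 h2
  | single w c =>
    refine ⟨|c| + 1, by positivity, ?_⟩
    have h1 : Finsupp.single w c = c • e w := by simp [e]
    rw [h1]
    have h2 : c • e w ∈ c • Ball := Set.smul_mem_smul_set (e_mem_Ball w)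
    refine balanced_Ball.smul_mono ?_ h2
    rw [Real.norm_eq_abs, Real.norm_eq_abs, abs_of_nonneg (by positivity : (0:ℝ) ≤ |c| + 1)]
    linarith

lemma absorbent_Ball : Absorbent ℝ Ball := by
  intro z
  obtain ⟨r, hr, hz⟩ := exists_mem_smul_Ball z
  rw [absorbs_iff_norm]
  refine ⟨r, fun c hc => ?_⟩
  rw [Set.singleton_subset_iff]
  refine balanced_Ball.smul_mono ?_ hz
  rw [Real.norm_of_nonneg hr.le]
  exact hc

/-- The norm of the tree space. -/
noncomputable def nm : Seminorm ℝ V := gaugeSeminorm balanced_Ball convex_Ball absorbent_Ball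

lemma nm_le_of_mem {r : ℝ} (hr : 0 ≤ r) {z : V} (hz : z ∈ r • Ball) : nm z ≤ r :=
  gauge_le_of_mem hr hz

lemma nm_le_one_of_mem {z : V} (hz : z ∈ Ball) : nm z ≤ 1 := gauge_le_one_of_mem hz

lemma exists_of_nm_lt {r : ℝ} {z : V} (hz : nm z < r) : ∃ s : ℝ, 0 < s ∧ s < r ∧ z ∈ s • Ball :=
  exists_lt_of_gauge_lt absorbent_Ball hz

lemma nm_e_le (w : Nd) : nm (e w) ≤ 1 := nm_le_one_of_mem (e_mem_Ball w)

/-- bound for molecules -/
lemma nm_mol_sq_le (M : ℕ) (s : Finset Nd) (b : Nd → ℝ) (w : Nd → Nd)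
    (hw : ∀ v ∈ s, pr M (w v) = v) :
    nm (∑ v ∈ s, b v • (e (w v) - e v)) ^ 2 ≤ ∑ v ∈ s, b v ^ 2 := by
  set S := ∑ v ∈ s, b v ^ 2 with hS
  have hS0 : 0 ≤ S := Finset.sum_nonneg (fun _ _ => sq_nonneg _)
  rcases hS0.eq_or_lt with h0 | h0
  · have hb : ∀ v ∈ s, b v = 0 := by
      intro v hv
      have := (Finset.sum_eq_zero_iff_of_nonneg (fun v _ => sq_nonneg (b v))).1 (hS ▸ h0.symm) v hv
      exact pow_eq_zero_iff (two_ne_zero) |>.1 this
    have : ∑ v ∈ s, b v • (e (w v) - e v) = 0 :=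
      Finset.sum_eq_zero (fun v hv => by rw [hb v hv, zero_smul])
    rw [this, map_zero, ← h0]; norm_num
  · have hsq : 0 < Real.sqrt S := Real.sqrt_pos.2 h0
    have hmem : ∑ v ∈ s, ((Real.sqrt S)⁻¹ * b v) • (e (w v) - e v) ∈ Ball := by
      apply mol_mem_Ball M s _ w _ hw
      simp_rw [mul_pow]
      rw [← Finset.mul_sum, ← hS, inv_pow, Real.sq_sqrt hS0, inv_mul_cancel₀ h0.ne']
    have h1 : ∑ v ∈ s, b v • (e (w v) - e v) =
        Real.sqrt S • ∑ v ∈ s, ((Real.sqrt S)⁻¹ * b v) • (e (w v) - e v) := by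
      rw [Finset.smul_sum]
      refine Finset.sum_congr rfl (fun v _ => ?_)
      rw [smul_smul, ← mul_assoc, mul_inv_cancel₀ hsq.ne', one_mul]
    have h2 : nm (∑ v ∈ s, b v • (e (w v) - e v)) ≤ Real.sqrt S := by
      apply nm_le_of_mem hsq.le
      rw [h1]
      exact Set.smul_mem_smul_set hmem
    calc nm (∑ v ∈ s, b v • (e (w v) - e v)) ^ 2 ≤ Real.sqrt S ^ 2 :=
          pow_le_pow_left₀ (apply_nonneg _ _) h2 2
      _ = S := Real.sq_sqrt hS0

lemma nm_dp_sq_le (t : Finset (Nd × ℕ)) (a : Nd × ℕ → ℝ) :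
    nm (∑ q ∈ t, a q • dd q.1 q.2) ^ 2 ≤ ∑ q ∈ t, a q ^ 2 := by
  set S := ∑ v ∈ t, a v ^ 2 with hS
  have hS0 : 0 ≤ S := Finset.sum_nonneg (fun _ _ => sq_nonneg _)
  rcases hS0.eq_or_lt with h0 | h0
  · have hb : ∀ v ∈ t, a v = 0 := by
      intro v hv
      have := (Finset.sum_eq_zero_iff_of_nonneg (fun v _ => sq_nonneg (a v))).1 (hS ▸ h0.symm) v hv
      exact pow_eq_zero_iff (two_ne_zero) |>.1 this
    have : ∑ v ∈ t, a v • dd v.1 v.2 = 0 :=
      Finset.sum_eq_zero (fun v hv => by rw [hb v hv, zero_smul])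
    rw [this, map_zero, ← h0]; norm_num
  · have hsq : 0 < Real.sqrt S := Real.sqrt_pos.2 h0
    have hmem : ∑ v ∈ t, ((Real.sqrt S)⁻¹ * a v) • dd v.1 v.2 ∈ Ball := by
      apply dp_mem_Ball t (fun v => (Real.sqrt S)⁻¹ * a v)
      simp_rw [mul_pow]
      rw [← Finset.mul_sum, ← hS, inv_pow, Real.sq_sqrt hS0, inv_mul_cancel₀ h0.ne']
    have h1 : ∑ v ∈ t, a v • dd v.1 v.2 =
        Real.sqrt S • ∑ v ∈ t, ((Real.sqrt S)⁻¹ * a v) • dd v.1 v.2 := by
      rw [Finset.smul_sum]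
      refine Finset.sum_congr rfl (fun v _ => ?_)
      rw [smul_smul, ← mul_assoc, mul_inv_cancel₀ hsq.ne', one_mul]
    have h2 : nm (∑ v ∈ t, a v • dd v.1 v.2) ≤ Real.sqrt S := by
      apply nm_le_of_mem hsq.le
      rw [h1]
      exact Set.smul_mem_smul_set hmem
    calc nm (∑ v ∈ t, a v • dd v.1 v.2) ^ 2 ≤ Real.sqrt S ^ 2 :=
          pow_le_pow_left₀ (apply_nonneg _ _) h2 2
      _ = S := Real.sq_sqrt hS0

end Pool.Agent.Helper44.AUC
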