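import Pool.Agent.Helper44.AUC.Main

set_option autoImplicit false

open scoped BigOperators Pointwise

namespace Pool.Agent.Helper44.AUC

/-- homogeneous version of the main inequality -/
theorem main_V (z : V) (N : ℕ → ℕ) (hN : Monotone N) (n : ℕ)
    (hbal : ∀ k < n, ∀ u, InF (N k) u → lin (psi u) (P (N (k+1)) z - P (N k) z) = 0) :
    ∑ k ∈ Finset.range n, nm (P (N (k+1)) z - P (N k) z) ^ 2 ≤ 15 * nm z ^ 2 := by
  have key : ∀ r : ℝ, nm z < r →
      ∑ k ∈ Finset.range n, nm (P (N (k+1)) z - P (N k) z) ^ 2 ≤ 15 * r ^ 2 := by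
    intro r hr
    obtain ⟨s, hs0, hsr, hzs⟩ := exists_of_nm_lt hr
    obtain ⟨z', hz', rfl⟩ := hzs
    simp only [map_smul, ← smul_sub] at hbal ⊢
    have h1 := main_ball z' hz' N hN n (fun k hk u hu => by
      have := hbal k hk u hu
      rw [smul_eq_mul] at this
      exact (mul_eq_zero.1 this).resolve_left hs0.ne')
    have h2 : ∑ k ∈ Finset.range n, nm (s • (P (N (k+1)) z' - P (N k) z')) ^ 2 =
        s ^ 2 * ∑ k ∈ Finset.range n, nm (P (N (k+1)) z' - P (N k) z') ^ 2 := by
      rw [Finset.mul_sum]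
      refine Finset.sum_congr rfl (fun k _ => ?_)
      rw [map_smul_eq_mul, Real.norm_of_nonneg hs0.le, mul_pow]
    rw [h2]
    have h3 : s ^ 2 ≤ r ^ 2 := pow_le_pow_left₀ hs0.le hsr.le 2
    nlinarith [sq_nonneg s]
  have h0 : 0 ≤ nm z := apply_nonneg _ _
  refine le_of_forall_pos_le_add (fun ε hε => ?_)
  -- choose r slightly larger than nm z
  have hcont : Filter.Tendsto (fun r : ℝ => 15 * r ^ 2) (nhdsWithin (nm z) (Set.Ioi (nm z)))
      (nhds (15 * nm z ^ 2)) := by
    apply Filter.Tendsto.mono_left _ nhdsWithin_le_nhds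
    exact (continuous_const.mul (continuous_pow 2)).tendsto _
  have h4 : ∀ᶠ r in nhdsWithin (nm z) (Set.Ioi (nm z)), 15 * r ^ 2 < 15 * nm z ^ 2 + ε :=
    hcont.eventually (gt_mem_nhds (by linarith))
  have h5 : ∀ᶠ r in nhdsWithin (nm z) (Set.Ioi (nm z)), nm z < r := by
    filter_upwards [self_mem_nhdsWithin] with r hr using hr
  obtain ⟨r, hr1, hr2⟩ := (h4.and h5).exists
  exact (key r hr2).trans hr1.le

/-- the algebraic subspaces used by the first player -/
noncomputable def W (N : ℕ) : Submodule ℝ V :=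
  LinearMap.ker (P N) ⊓ sInf ((fun u => LinearMap.ker (lin (psi u))) '' {u | InF N u})

lemma mem_W {N : ℕ} {z : V} : z ∈ W N ↔ P N z = 0 ∧ ∀ u, InF N u → lin (psi u) z = 0 := by
  simp only [W, Submodule.mem_inf, LinearMap.mem_ker, Submodule.mem_sInf, Set.mem_image,
    forall_exists_index, and_imp]
  constructor
  · rintro ⟨h1, h2⟩
    refine ⟨h1, fun u hu => ?_⟩
    have := h2 _ u hu rfl
    simpa using this
  · rintro ⟨h1, h2⟩
    refine ⟨h1, ?_⟩
    rintro _ u hu rfl
    simpa using h2 u hu

lemma finite_InF (N : ℕ) : {u : Nd | InF N u}.Finite := by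
  have key : ∀ L : ℕ, {w : Nd | w.length ≤ L ∧ ∀ a ∈ w, a.1 < N}.Finite := by
    intro L
    induction L with
    | zero =>
      refine (Set.finite_singleton ([] : Nd)).subset ?_
      rintro w ⟨hw, _⟩
      exact List.length_eq_zero_iff.1 (by omega)
    | succ L ih =>
      have hS : {a : Lab | a.1 < N}.Finite := by
        have : {a : Lab | a.1 < N} = (Set.Iio N) ×ˢ (Set.univ : Set Bool) := by
          ext a; simp
        rw [this]
        exact (Set.finite_Iio N).prod Set.finite_univ
      refine ((Set.finite_singleton ([] : Nd)).union (hS.image2 List.cons ih)).subset ?_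
      rintro w ⟨hw1, hw2⟩
      cases w with
      | nil => left; rfl
      | cons a u =>
        right
        refine ⟨a, hw2 a (by simp), u, ⟨by simpa using hw1, fun b hb => hw2 b (by simp [hb])⟩, rfl⟩
  exact key N

lemma P_mem_span (N : ℕ) (z : V) : P N z ∈ Submodule.span ℝ (e '' {u | InF N u}) := by
  induction z using Finsupp.induction_linear with
  | zero => simp
  | add f g hf hg => rw [map_add]; exact Submodule.add_mem _ hf hg
  | single w c =>
    have h1 : Finsupp.single w c = c • e w := by simp [e]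
    have h2 : P N (Finsupp.single w c) = c • e (pr N w) := by
      rw [h1, map_smul, P_e]
    have h3 : e (pr N w) ∈ Submodule.span ℝ (e '' {u | InF N u}) :=
      Submodule.subset_span (Set.mem_image_of_mem e (pr_InF N w))
    rw [h2]
    exact Submodule.smul_mem _ _ h3

lemma coFG_W (N : ℕ) : (W N).CoFG := by
  apply Submodule.CoFG.inf
  · have hfin : FiniteDimensional ℝ (Submodule.span ℝ (e '' {u | InF N u})) :=
      FiniteDimensional.span_of_finite ℝ ((finite_InF N).image e)
    have hle : LinearMap.range (P N) ≤ Submodule.span ℝ (e '' {u | InF N u}) := by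
      rintro _ ⟨z, rfl⟩
      exact P_mem_span N z
    have hfd : FiniteDimensional ℝ (LinearMap.range (P N)) := Submodule.finiteDimensional_of_le hle
    exact Submodule.range_fg_iff_ker_cofg.1 (Module.Finite.iff_fg.1 hfd)
  · apply Submodule.CoFG.sInf_of_finite ((finite_InF N).image _)
    rintro _ ⟨u, _, rfl⟩
    exact Submodule.CoFG.ker _

/-- The tree space before completion. -/
def VS : Type := Nd →₀ ℝ

noncomputable instance : AddCommGroup VS := inferInstanceAs (AddCommGroup (Nd →₀ ℝ))
noncomputable instance : Module ℝ VS := inferInstanceAs (Module ℝ (Nd →₀ ℝ))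

noncomputable def toVS : V ≃ₗ[ℝ] VS := LinearEquiv.refl ℝ V

noncomputable def nmS : Seminorm ℝ VS := nm

noncomputable instance instSNG : SeminormedAddCommGroup VS :=
  nmS.toAddGroupSeminorm.toSeminormedAddCommGroup

lemma norm_VS (z : V) : ‖toVS z‖ = nm z := rfl

noncomputable instance : NormedSpace ℝ VS := ⟨fun a b => by
  change nmS (a • b) ≤ ‖a‖ * nmS b
  rw [map_smul_eq_mul]⟩

/-- The Banach space. -/
abbrev X : Type := UniformSpace.Completion VS

/-- the canonical map -/
noncomputable def J : V →ₗ[ℝ] X :=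
  (UniformSpace.Completion.toComplL (𝕜 := ℝ) (E := VS)).toLinearMap ∘ₗ toVS.toLinearMap

lemma norm_J (z : V) : ‖J z‖ = nm z := by
  change ‖((toVS z : VS) : UniformSpace.Completion VS)‖ = _
  rw [UniformSpace.Completion.norm_coe, norm_VS]

lemma denseRange_J : DenseRange J := by
  have h1 : DenseRange ((↑) : VS → UniformSpace.Completion VS) :=
    UniformSpace.Completion.denseRange_coe
  have h2 : Set.range J = Set.range ((↑) : VS → UniformSpace.Completion VS) := by
    ext x
    constructor
    · rintro ⟨z, rfl⟩; exact ⟨toVS z, rfl⟩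
    · rintro ⟨z, rfl⟩; exact ⟨toVS.symm z, rfl⟩
  unfold DenseRange
  rw [h2]
  exact h1

/-- closed finite codimensional subspaces played by the first player -/
noncomputable def Y (N : ℕ) : Submodule ℝ X := ((W N).map J).topologicalClosure

lemma isClosed_Y (N : ℕ) : IsClosed (Y N : Set X) := Submodule.isClosed_topologicalClosure _

lemma coFG_Y (N : ℕ) : FiniteDimensional ℝ (X ⧸ Y N) := by
  obtain ⟨E, hE⟩ := Submodule.exists_isCompl (W N)
  have hEfg : E.FG := Submodule.CoFG.fg_of_isCompl hE (coFG_W N)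
  have hE'fg : (E.map J).FG := hEfg.map J
  have : FiniteDimensional ℝ (E.map J) := Module.Finite.iff_fg.2 hE'fg
  have hcl : IsClosed ((Y N ⊔ E.map J : Submodule ℝ X) : Set X) :=
    Submodule.isClosed_sup_finiteDimensional _ _ (isClosed_Y N)
  have hsub : Set.range J ⊆ ((Y N ⊔ E.map J : Submodule ℝ X) : Set X) := by
    rintro _ ⟨z, rfl⟩
    have hz : z ∈ W N ⊔ E := by rw [hE.sup_eq_top]; trivial
    obtain ⟨a, ha, b, hb, rfl⟩ := Submodule.mem_sup.1 hz
    rw [map_add]
    refine Submodule.add_mem_sup ?_ (Submodule.mem_map_of_mem hb)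
    exact Submodule.le_topologicalClosure _ (Submodule.mem_map_of_mem ha)
  have htop : Y N ⊔ E.map J = ⊤ := by
    rw [eq_top_iff]
    intro x _
    have h1 : x ∈ closure (Set.range J) := denseRange_J x
    exact (closure_minimal hsub hcl) h1
  exact Submodule.FG.cofg_of_codisjoint (codisjoint_iff.2 (by rw [sup_comm]; exact htop)) hE'fg

lemma exists_approx {N : ℕ} {y : X} (hy : y ∈ Y N) {η : ℝ} (hη : 0 < η) :
    ∃ w ∈ W N, ‖y - J w‖ ≤ η := by
  have h1 : y ∈ closure (((W N).map J : Submodule ℝ X) : Set X) := hy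
  rw [Metric.mem_closure_iff] at h1
  obtain ⟨b, hb, hd⟩ := h1 η hη
  obtain ⟨w, hw, rfl⟩ := hb
  exact ⟨w, hw, by rw [← dist_eq_norm]; exact hd.le⟩

lemma exists_P_eq (z : V) : ∃ N : ℕ, ∀ N' ≥ N, P N' z = z := by
  induction z using Finsupp.induction_linear with
  | zero => exact ⟨0, fun N' _ => map_zero _⟩
  | add f g hf hg =>
    obtain ⟨N1, h1⟩ := hf
    obtain ⟨N2, h2⟩ := hg
    refine ⟨max N1 N2, fun N' hN' => ?_⟩
    rw [map_add, h1 N' ((le_max_left _ _).trans hN'), h2 N' ((le_max_right _ _).trans hN')]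
  | single w c =>
    have h1 : Finsupp.single w c = c • e w := by simp [e]
    have h2 : ∃ N, InF N w := by
      induction w with
      | nil => exact ⟨0, InF_nil 0⟩
      | cons a u ih =>
        obtain ⟨N, hN⟩ := ih (by simp [e])
        refine ⟨max (N + 1) (a.1 + 1), ?_, ?_⟩
        · have := hN.1
          simp only [List.length_cons]
          have := le_max_left (N+1) (a.1+1)
          omega
        · intro b hb
          rcases List.mem_cons.1 hb with rfl | hb
          · have := le_max_right (N+1) (b.1+1)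
            omega
          · have := hN.2 b hb
            have := le_max_left (N+1) (a.1+1)
            omega
    obtain ⟨N, hN⟩ := h2
    refine ⟨N, fun N' hN' => ?_⟩
    rw [h1, map_smul, P_e, pr_of_InF (InF_mono hN' hN)]

end Pool.Agent.Helper44.AUC
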