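import Pool.Agent.Helper44.AUC.Norm

set_option autoImplicit false

open scoped BigOperators Pointwise

namespace Pool.Agent.Helper44.AUC

lemma exists_lin {E : Type*} [AddCommGroup E] [Module ℝ E] (p : Seminorm ℝ E) (x : E) :
    ∃ f : E →ₗ[ℝ] ℝ, (∀ y, |f y| ≤ p y) ∧ f x = p x := by
  letI : SeminormedAddCommGroup E := p.toAddGroupSeminorm.toSeminormedAddCommGroup
  letI : NormedSpace ℝ E := ⟨fun a b => by
    change p (a • b) ≤ ‖a‖ * p b
    rw [map_smul_eq_mul]⟩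
  obtain ⟨g, hg, hx⟩ := exists_dual_vector'' ℝ x
  refine ⟨g.toLinearMap, fun y => ?_, ?_⟩
  · have h1 := g.le_opNorm y
    have h2 : ‖g‖ * ‖y‖ ≤ 1 * ‖y‖ := by
      apply mul_le_mul_of_nonneg_right hg (norm_nonneg _)
    have h3 : ‖g y‖ ≤ ‖y‖ := by linarith
    exact h3
  · exact hx

lemma sq_sum_abs_le {α : Type*} [DecidableEq α] (B : Finset α) (t : α → ℝ) :
    (∑ w ∈ B, |t w|) ^ 2 ≤ (∑ w ∈ B, t w) ^ 2 +
      2 * ∑ w ∈ B, ∑ w' ∈ B, |t w| * |t w'| * (if w ≠ w' then 1 else 0) := by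
  rw [sq, sq, Finset.sum_mul_sum, Finset.sum_mul_sum, Finset.mul_sum, ← Finset.sum_add_distrib]
  refine Finset.sum_le_sum (fun w _ => ?_)
  rw [Finset.mul_sum, ← Finset.sum_add_distrib]
  refine Finset.sum_le_sum (fun w' _ => ?_)
  by_cases h : w = w'
  · subst h
    simp [abs_mul_abs_self]
  · simp only [ne_eq, h, not_false_eq_true, if_true, mul_one]
    have h1 : |t w| * |t w'| = |t w * t w'| := (abs_mul _ _).symm
    rw [h1]
    have := neg_abs_le (t w * t w')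
    linarith

noncomputable def psi (u : Nd) (w : Nd) : ℝ := jf u sg w

lemma psi_self (u : Nd) : psi u u = 0 := jf_self u sg

lemma psi_pr {N : ℕ} {u : Nd} (hu : InF N u) {w : Nd} (h : pr N w ≠ u) :
    psi u w = psi u (pr N w) := by
  apply jf_pr_of_ne (N := N) u sg w
  rw [pr_of_InF hu]; exact h

lemma abs_psi {N : ℕ} {u : Nd} {w : Nd} (h : pr N w = u) (hne : w ≠ u) : |psi u w| = 1 := by
  obtain ⟨a, ha⟩ := jf_of_pr_eq (N := N) u sg w h hne
  rw [psi, ha, abs_sg]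

lemma abs_psi_le (u w : Nd) : |psi u w| ≤ 1 := by
  rcases jf_eq_or u sg w with h | ⟨a, ha⟩
  · rw [psi, h]; simp
  · rw [psi, ha, abs_sg]

/-- first half of the stage estimate: reduction to masses. -/
lemma stage_mass (W : Finset Nd) (c : Nd → ℝ) (N : ℕ) :
    nm (∑ w ∈ W, c w • (e w - e (pr N w))) ^ 2 ≤
      ∑ u ∈ W.image (pr N), (∑ w ∈ W with pr N w = u ∧ w ≠ u, |c w|) ^ 2 := by
  classical
  set x := ∑ w ∈ W, c w • (e w - e (pr N w)) with hx
  obtain ⟨f, hf, hfx⟩ := exists_lin nm x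
  set U := W.image (pr N) with hU
  set a : Nd → ℝ := fun w => f (e w) with ha
  have hex : ∀ u : Nd, ∃ w : Nd, u ∈ U → (w ∈ W ∧ pr N w = u ∧
      ∀ w' ∈ W, pr N w' = u → |a w' - a u| ≤ |a w - a u|) := by
    intro u
    by_cases hu : u ∈ U
    · have hne : (W.filter (fun w => pr N w = u)).Nonempty := by
        obtain ⟨w, hw, rfl⟩ := Finset.mem_image.1 hu
        exact ⟨w, Finset.mem_filter.2 ⟨hw, rfl⟩⟩
      obtain ⟨w, hw, hmax⟩ := Finset.exists_max_image (W.filter (fun w => pr N w = u))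
        (fun w => |a w - a u|) hne
      rw [Finset.mem_filter] at hw
      exact ⟨w, fun _ => ⟨hw.1, hw.2, fun w' hw' hpr => hmax w' (Finset.mem_filter.2 ⟨hw', hpr⟩)⟩⟩
    · exact ⟨u, fun h => absurd h hu⟩
  choose ws hws using hex
  set M : Nd → ℝ := fun u => ∑ w ∈ W with pr N w = u ∧ w ≠ u, |c w| with hM
  have hM0 : ∀ u, 0 ≤ M u := fun u => Finset.sum_nonneg (fun _ _ => abs_nonneg _)
  have h1 : nm x ≤ ∑ u ∈ U, M u * |a (ws u) - a u| := by
    rw [← hfx, hx, map_sum]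
    rw [← Finset.sum_fiberwise_of_maps_to (s := W) (t := U) (g := pr N)
      (fun w hw => Finset.mem_image_of_mem _ hw)]
    refine Finset.sum_le_sum (fun u hu => ?_)
    have h2 : ∑ w ∈ W with pr N w = u, f (c w • (e w - e (pr N w))) =
        ∑ w ∈ W with pr N w = u ∧ w ≠ u, c w * (a w - a u) := by
      rw [← Finset.filter_filter, Finset.sum_filter (p := fun w => w ≠ u)]
      refine Finset.sum_congr rfl (fun w hw => ?_)
      rw [Finset.mem_filter] at hw
      rw [hw.2]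
      by_cases hwu : w = u
      · simp [hwu]
      · simp [hwu, ha]
    rw [h2, hM, Finset.sum_mul]
    refine Finset.sum_le_sum (fun w hw => ?_)
    rw [Finset.mem_filter] at hw
    calc c w * (a w - a u) ≤ |c w * (a w - a u)| := le_abs_self _
      _ = |c w| * |a w - a u| := abs_mul _ _
      _ ≤ |c w| * |a (ws u) - a u| :=
        mul_le_mul_of_nonneg_left ((hws u hu).2.2 w hw.1 hw.2.1) (abs_nonneg _)
  set σ : Nd → ℝ := fun u => if 0 ≤ a (ws u) - a u then 1 else -1 with hσ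
  have hσ1 : ∀ u, σ u * (a (ws u) - a u) = |a (ws u) - a u| := by
    intro u
    by_cases h : 0 ≤ a (ws u) - a u
    · simp only [hσ, h, if_true, one_mul, abs_of_nonneg h]
    · have h' : a (ws u) - a u < 0 := not_le.1 h
      simp only [hσ, h, if_false, abs_of_neg h', neg_mul, one_mul]
  have hσ2 : ∀ u, σ u ^ 2 = 1 := by
    intro u
    simp only [hσ]; split_ifs <;> norm_num
  have h3 : ∑ u ∈ U, M u * |a (ws u) - a u| =
      f (∑ u ∈ U, (M u * σ u) • (e (ws u) - e u)) := by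
    rw [map_sum]
    refine Finset.sum_congr rfl (fun u _ => ?_)
    rw [map_smul, map_sub, smul_eq_mul, mul_assoc, ← hσ1]
  have h4 : nm (∑ u ∈ U, (M u * σ u) • (e (ws u) - e u)) ^ 2 ≤ ∑ u ∈ U, M u ^ 2 := by
    refine (nm_mol_sq_le N U (fun u => M u * σ u) ws (fun u hu => (hws u hu).2.1)).trans_eq ?_
    refine Finset.sum_congr rfl (fun u _ => ?_)
    rw [mul_pow, hσ2, mul_one]
  have h5 : nm x ≤ nm (∑ u ∈ U, (M u * σ u) • (e (ws u) - e u)) := by
    calc nm x ≤ ∑ u ∈ U, M u * |a (ws u) - a u| := h1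
      _ = f (∑ u ∈ U, (M u * σ u) • (e (ws u) - e u)) := h3
      _ ≤ |f (∑ u ∈ U, (M u * σ u) • (e (ws u) - e u))| := le_abs_self _
      _ ≤ _ := hf _
  exact (pow_le_pow_left₀ (apply_nonneg _ _) h5 2).trans h4

/-- second half: masses against splitting energy and imbalance -/
lemma mass_le (W : Finset Nd) (c : Nd → ℝ) (N : ℕ) (u : Nd) (hu : InF N u) :
    (∑ w ∈ W with pr N w = u ∧ w ≠ u, |c w|) ^ 2 ≤
      (∑ w ∈ W, c w * (psi u w - psi u (pr N w))) ^ 2 +
      2 * ∑ w ∈ W with pr N w = u, ∑ w' ∈ W with pr N w' = u,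
        |c w| * |c w'| * (if w ≠ w' then 1 else 0) := by
  classical
  set B := W.filter (fun w => pr N w = u ∧ w ≠ u) with hB
  have h1 : ∑ w ∈ W, c w * (psi u w - psi u (pr N w)) = ∑ w ∈ B, c w * psi u w := by
    rw [hB, Finset.sum_filter]
    refine Finset.sum_congr rfl (fun w _ => ?_)
    by_cases hp : pr N w = u
    · by_cases hw : w = u
      · subst hw
        simp [hp, psi_self]
      · simp [hp, hw, psi_self]
    · simp only [hp, false_and, if_false]
      rw [psi_pr hu hp, sub_self, mul_zero]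
  have h2 : ∀ w ∈ B, |c w * psi u w| = |c w| := by
    intro w hw
    rw [hB, Finset.mem_filter] at hw
    rw [abs_mul, abs_psi hw.2.1 hw.2.2, mul_one]
  have h3 : ∑ w ∈ B, |c w| = ∑ w ∈ B, |c w * psi u w| :=
    Finset.sum_congr rfl (fun w hw => (h2 w hw).symm)
  rw [h1, h3]
  refine (sq_sum_abs_le B (fun w => c w * psi u w)).trans ?_
  have hsub : B ⊆ W.filter (fun w => pr N w = u) := by
    intro w hw
    rw [hB, Finset.mem_filter] at hw
    exact Finset.mem_filter.2 ⟨hw.1, hw.2.1⟩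
  have h4 : ∑ w ∈ B, ∑ w' ∈ B, |c w * psi u w| * |c w' * psi u w'| * (if w ≠ w' then 1 else 0) ≤
      ∑ w ∈ W with pr N w = u, ∑ w' ∈ W with pr N w' = u,
        |c w| * |c w'| * (if w ≠ w' then 1 else 0) := by
    have hnn : ∀ w w' : Nd, 0 ≤ |c w| * |c w'| * (if w ≠ w' then (1:ℝ) else 0) := by
      intro w w'
      split_ifs <;> positivity
    calc ∑ w ∈ B, ∑ w' ∈ B, |c w * psi u w| * |c w' * psi u w'| * (if w ≠ w' then 1 else 0)
        = ∑ w ∈ B, ∑ w' ∈ B, |c w| * |c w'| * (if w ≠ w' then 1 else 0) := by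
          refine Finset.sum_congr rfl (fun w hw => Finset.sum_congr rfl (fun w' hw' => ?_))
          rw [h2 w hw, h2 w' hw']
      _ ≤ ∑ w ∈ B, ∑ w' ∈ W with pr N w' = u, |c w| * |c w'| * (if w ≠ w' then 1 else 0) :=
          Finset.sum_le_sum (fun w _ => Finset.sum_le_sum_of_subset_of_nonneg hsub
            (fun w' _ _ => hnn w w'))
      _ ≤ _ := Finset.sum_le_sum_of_subset_of_nonneg hsub
            (fun w _ _ => Finset.sum_nonneg (fun w' _ => hnn w w'))
  linarith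

/-- The stage estimate, in terms of a finite family of weighted points. -/
lemma stage {ι : Type*} (Ω : Finset ι) (m : ι → ℝ) (y : ι → Nd) (N : ℕ) :
    nm (∑ ω ∈ Ω, m ω • (e (y ω) - e (pr N (y ω)))) ^ 2 ≤
      2 * (∑ ω ∈ Ω, ∑ ω' ∈ Ω, |m ω| * |m ω'| *
        (if pr N (y ω) = pr N (y ω') ∧ y ω ≠ y ω' then 1 else 0)) +
      ∑ u ∈ Ω.image (fun ω => pr N (y ω)),
        (∑ ω ∈ Ω, m ω * (psi u (y ω) - psi u (pr N (y ω)))) ^ 2 := by
  classical
  set W := Ω.image y with hW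
  set c : Nd → ℝ := fun w => ∑ ω ∈ Ω with y ω = w, m ω with hc
  set C : Nd → ℝ := fun w => ∑ ω ∈ Ω with y ω = w, |m ω| with hC
  have hcC : ∀ w, |c w| ≤ C w := fun w => Finset.abs_sum_le_sum_abs _ _
  have hC0 : ∀ w, 0 ≤ C w := fun w => Finset.sum_nonneg (fun _ _ => abs_nonneg _)
  have hmap : ∀ ω ∈ Ω, y ω ∈ W := fun ω hω => Finset.mem_image_of_mem _ hω
  have hA : ∑ ω ∈ Ω, m ω • (e (y ω) - e (pr N (y ω))) = ∑ w ∈ W, c w • (e w - e (pr N w)) := by
    rw [← Finset.sum_fiberwise_of_maps_to hmap]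
    refine Finset.sum_congr rfl (fun w _ => ?_)
    rw [hc, Finset.sum_smul]
    refine Finset.sum_congr rfl (fun ω hω => ?_)
    rw [(Finset.mem_filter.1 hω).2]
  have hT : ∀ u, ∑ ω ∈ Ω, m ω * (psi u (y ω) - psi u (pr N (y ω))) =
      ∑ w ∈ W, c w * (psi u w - psi u (pr N w)) := by
    intro u
    rw [← Finset.sum_fiberwise_of_maps_to hmap]
    refine Finset.sum_congr rfl (fun w _ => ?_)
    rw [hc, Finset.sum_mul]
    refine Finset.sum_congr rfl (fun ω hω => ?_)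
    rw [(Finset.mem_filter.1 hω).2]
  have hUi : Ω.image (fun ω => pr N (y ω)) = W.image (pr N) := by
    rw [hW, Finset.image_image]; rfl
  rw [hA, hUi]
  simp_rw [hT]
  set U := W.image (pr N) with hU
  have hUF : ∀ u ∈ U, InF N u := by
    intro u hu
    obtain ⟨w, _, rfl⟩ := Finset.mem_image.1 hu
    exact pr_InF N w
  have hmapU : ∀ w ∈ W, pr N w ∈ U := fun w hw => Finset.mem_image_of_mem _ hw
  have h1 := stage_mass W c N
  have h2 : ∑ u ∈ U, (∑ w ∈ W with pr N w = u ∧ w ≠ u, |c w|) ^ 2 ≤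
      ∑ u ∈ U, ((∑ w ∈ W, c w * (psi u w - psi u (pr N w))) ^ 2 +
      2 * ∑ w ∈ W with pr N w = u, ∑ w' ∈ W with pr N w' = u,
        |c w| * |c w'| * (if w ≠ w' then 1 else 0)) :=
    Finset.sum_le_sum (fun u hu => mass_le W c N u (hUF u hu))
  have h3 : ∑ u ∈ U, ∑ w ∈ W with pr N w = u, ∑ w' ∈ W with pr N w' = u,
        |c w| * |c w'| * (if w ≠ w' then (1:ℝ) else 0) =
      ∑ w ∈ W, ∑ w' ∈ W, |c w| * |c w'| * (if pr N w = pr N w' ∧ w ≠ w' then 1 else 0) := by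
    rw [← Finset.sum_fiberwise_of_maps_to hmapU]
    refine Finset.sum_congr rfl (fun u _ => Finset.sum_congr rfl (fun w hw => ?_))
    rw [Finset.sum_filter]
    refine Finset.sum_congr rfl (fun w' _ => ?_)
    have hwu := (Finset.mem_filter.1 hw).2
    by_cases h : pr N w' = u
    · by_cases h' : w = w'
      · simp [h']
      · simp [h, hwu, h']
    · have h' : ¬ (pr N w = pr N w' ∧ w ≠ w') := by
        rintro ⟨h1, _⟩; exact h (h1.symm.trans hwu)
      rw [if_neg h, if_neg h', mul_zero]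
  have h4 : ∑ w ∈ W, ∑ w' ∈ W, |c w| * |c w'| * (if pr N w = pr N w' ∧ w ≠ w' then (1:ℝ) else 0) ≤
      ∑ w ∈ W, ∑ w' ∈ W, C w * C w' * (if pr N w = pr N w' ∧ w ≠ w' then 1 else 0) := by
    refine Finset.sum_le_sum (fun w _ => Finset.sum_le_sum (fun w' _ => ?_))
    refine mul_le_mul_of_nonneg_right ?_ (by split_ifs <;> norm_num)
    exact mul_le_mul (hcC w) (hcC w') (abs_nonneg _) (hC0 w)
  have h5 : ∑ w ∈ W, ∑ w' ∈ W, C w * C w' * (if pr N w = pr N w' ∧ w ≠ w' then (1:ℝ) else 0) =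
      ∑ ω ∈ Ω, ∑ ω' ∈ Ω, |m ω| * |m ω'| *
        (if pr N (y ω) = pr N (y ω') ∧ y ω ≠ y ω' then 1 else 0) := by
    rw [← Finset.sum_fiberwise_of_maps_to hmap]
    refine Finset.sum_congr rfl (fun w _ => ?_)
    have : ∀ w', C w * C w' * (if pr N w = pr N w' ∧ w ≠ w' then (1:ℝ) else 0) =
        ∑ ω ∈ Ω with y ω = w, ∑ ω' ∈ Ω with y ω' = w', |m ω| * |m ω'| *
        (if pr N (y ω) = pr N (y ω') ∧ y ω ≠ y ω' then 1 else 0) := by
      intro w'
      rw [hC, Finset.sum_mul_sum, Finset.sum_mul]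
      refine Finset.sum_congr rfl (fun ω hω => ?_)
      rw [Finset.sum_mul]
      refine Finset.sum_congr rfl (fun ω' hω' => ?_)
      rw [(Finset.mem_filter.1 hω).2, (Finset.mem_filter.1 hω').2]
    simp_rw [this]
    rw [Finset.sum_comm]
    refine Finset.sum_congr rfl (fun ω _ => ?_)
    exact Finset.sum_fiberwise_of_maps_to hmap _
  rw [Finset.sum_add_distrib, ← Finset.mul_sum, h3] at h2
  linarith

end Pool.Agent.Helper44.AUC
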