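import Mathlib

set_option autoImplicit false

open scoped BigOperators

namespace Pool.Agent.Helper44.AUC

/-- Labels: a natural number together with a sign. -/
abbrev Lab := ℕ × Bool
/-- Nodes of the tree; the children of `v` are the lists `a :: v`. -/
abbrev Nd := List Lab

/-- The `N`-th finite subtree. -/
def InF (N : ℕ) (w : Nd) : Prop := w.length ≤ N ∧ ∀ a ∈ w, a.1 < N

instance (N : ℕ) (w : Nd) : Decidable (InF N w) := by
  unfold InF; infer_instance

lemma InF_nil (N : ℕ) : InF N [] := by simp [InF]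

lemma InF_tail {N : ℕ} {a : Lab} {u : Nd} (h : InF N (a :: u)) : InF N u := by
  obtain ⟨h1, h2⟩ := h
  refine ⟨?_, fun b hb => h2 b (List.mem_cons_of_mem _ hb)⟩
  simp at h1; omega

lemma InF_mono {M N : ℕ} (h : M ≤ N) {w : Nd} (hw : InF M w) : InF N w :=
  ⟨hw.1.trans h, fun a ha => (hw.2 a ha).trans_le h⟩

lemma InF_swap {N : ℕ} {α : ℕ} {s t : Bool} {u : Nd} (h : InF N ((α, s) :: u)) :
    InF N ((α, t) :: u) := by
  obtain ⟨h1, h2⟩ := h
  refine ⟨by simpa using h1, fun b hb => ?_⟩
  rcases List.mem_cons.1 hb with rfl | hb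
  · exact h2 (α, s) (by simp)
  · exact h2 b (by simp [hb])

/-- Projection of a node to the last node of its path inside the `N`-th finite subtree. -/
def pr (N : ℕ) : Nd → Nd
  | [] => []
  | a :: u => if InF N (a :: u) then a :: u else pr N u

lemma pr_nil (N : ℕ) : pr N [] = [] := rfl

lemma pr_cons_of_InF {N : ℕ} {a : Lab} {u : Nd} (h : InF N (a :: u)) : pr N (a :: u) = a :: u := by
  simp [pr, h]

lemma pr_cons_of_not {N : ℕ} {a : Lab} {u : Nd} (h : ¬ InF N (a :: u)) : pr N (a :: u) = pr N u := by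
  simp [pr, h]

lemma pr_of_InF {N : ℕ} {w : Nd} (h : InF N w) : pr N w = w := by
  cases w with
  | nil => rfl
  | cons a u => exact pr_cons_of_InF h

lemma pr_InF (N : ℕ) (w : Nd) : InF N (pr N w) := by
  induction w with
  | nil => exact InF_nil N
  | cons a u ih =>
    by_cases h : InF N (a :: u)
    · rw [pr_cons_of_InF h]; exact h
    · rw [pr_cons_of_not h]; exact ih

lemma pr_pr {M N : ℕ} (h : M ≤ N) (w : Nd) : pr M (pr N w) = pr M w := by
  induction w with
  | nil => rfl
  | cons a u ih =>
    by_cases h1 : InF N (a :: u)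
    · rw [pr_cons_of_InF h1]
    · have h2 : ¬ InF M (a :: u) := fun h2 => h1 (InF_mono h h2)
      rw [pr_cons_of_not h1, pr_cons_of_not h2, ih]

lemma pr_idem (N : ℕ) (w : Nd) : pr N (pr N w) = pr N w := pr_pr le_rfl w

/-- Functions on the tree which jump only along the edges starting at `v`. -/
noncomputable def jf (v : Nd) (h : Lab → ℝ) : Nd → ℝ
  | [] => 0
  | a :: u => if u = v then h a else jf v h u

lemma jf_of_length_le (v : Nd) (h : Lab → ℝ) (w : Nd) (hw : w.length ≤ v.length) :
    jf v h w = 0 := by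
  induction w with
  | nil => rfl
  | cons a u ih =>
    have h1 : u ≠ v := by rintro rfl; simp at hw
    simp only [jf, h1, if_false]
    apply ih
    simp at hw; omega

lemma jf_self (v : Nd) (h : Lab → ℝ) : jf v h v = 0 := jf_of_length_le v h v le_rfl

lemma jf_cons_self (v : Nd) (h : Lab → ℝ) (a : Lab) : jf v h (a :: v) = h a := by simp [jf]

lemma jf_cons_ne {v u : Nd} (h : Lab → ℝ) (a : Lab) (huv : u ≠ v) :
    jf v h (a :: u) = jf v h u := by simp [jf, huv]

/-- the jump function does not change between `pr N w` and `w`, unless `pr N w = pr N v`. -/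
lemma jf_pr_of_ne {N : ℕ} (v : Nd) (h : Lab → ℝ) (w : Nd) (hne : pr N w ≠ pr N v) :
    jf v h w = jf v h (pr N w) := by
  induction w with
  | nil => rfl
  | cons a u ih =>
    by_cases h1 : InF N (a :: u)
    · rw [pr_cons_of_InF h1]
    · rw [pr_cons_of_not h1] at hne ⊢
      have huv : u ≠ v := by rintro rfl; exact hne rfl
      rw [jf_cons_ne h a huv, ih hne]

lemma jf_eq_or (v : Nd) (h : Lab → ℝ) (w : Nd) : jf v h w = 0 ∨ ∃ a, jf v h w = h a := by
  induction w with
  | nil => left; rfl
  | cons a u ih =>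
    by_cases huv : u = v
    · right; exact ⟨a, by simp [jf, huv]⟩
    · rw [jf_cons_ne h a huv]; exact ih

/-- if `w` exits the subtree at `v` then the jump function takes a value of `h` at `w`. -/
lemma jf_of_pr_eq {N : ℕ} (v : Nd) (h : Lab → ℝ) (w : Nd) (hv : pr N w = v) (hne : w ≠ v) :
    ∃ a, jf v h w = h a := by
  induction w with
  | nil => exact absurd hv hne
  | cons a u ih =>
    by_cases h1 : InF N (a :: u)
    · rw [pr_cons_of_InF h1] at hv; exact absurd hv hne
    · rw [pr_cons_of_not h1] at hv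
      by_cases huv : u = v
      · exact ⟨a, by simp [jf, huv]⟩
      · rw [jf_cons_ne h a huv]; exact ih hv huv

/-- sign of a label -/
def sg (a : Lab) : ℝ := if a.2 then 1 else -1

lemma abs_sg (a : Lab) : |sg a| = 1 := by
  unfold sg; split_ifs <;> simp

end Pool.Agent.Helper44.AUC
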